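import Pool.Agent.N403.QG.LamBV2
import Pool.Agent.H316R2.Bv

/-!
# QG/BVL, part 5: from primitive characters to residue classes
-/

set_option autoImplicit false

namespace Pool.Agent.N403.QG

open Finset Pool.Agent.Helper112 Pool.Agent.Helper112.BLB Pool.Agent.Helper112.TI
open Pool.Agent.Helper112.TII Pool.Agent.H398R2.BV

noncomputable section

/-- logarithmic sums over a residue class -/
def TP (X : ℝ) (m a : ℕ) : ℝ :=
  ∑ n ∈ (Icc 1 ⌊X⌋₊).filter (fun n => n ≡ a [MOD m]), la n * Real.log (X / n)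

open Classical in
lemma TP_le (X : ℝ) (m : ℕ) [NeZero m] (a : ℕ) (ha : a.Coprime m) :
    |TP X m a| ≤ (1 / (Nat.totient m : ℝ)) *
      ∑ χ : DirichletCharacter ℂ m, ‖TL X m χ la‖ := by
  have hau : IsUnit (a : ZMod m) := (ZMod.isUnit_iff_coprime a m).mpr ha
  have h0 : (Nat.totient m : ℂ) ≠ 0 := by
    have := Nat.totient_pos.mpr (NeZero.pos m)
    exact_mod_cast this.ne'
  have key : ((TP X m a : ℝ) : ℂ) = (1 / (Nat.totient m : ℂ)) *
      ∑ χ : DirichletCharacter ℂ m, χ ((a : ZMod m)⁻¹) * TL X m χ la := by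
    have e1 : ∑ χ : DirichletCharacter ℂ m, χ ((a : ZMod m)⁻¹) * TL X m χ la =
        ∑ n ∈ Icc 1 ⌊X⌋₊, (∑ χ : DirichletCharacter ℂ m, χ ((a : ZMod m)⁻¹) * χ (n : ZMod m)) *
          ((la n : ℂ) * ((Real.log (X / n) : ℝ) : ℂ)) := by
      unfold TL
      simp_rw [mul_sum]
      rw [sum_comm]
      refine sum_congr rfl fun n _ => ?_
      rw [sum_mul]
      refine sum_congr rfl fun χ _ => ?_
      ring
    rw [e1, mul_sum]
    unfold TP
    rw [sum_filter, Complex.ofReal_sum]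
    refine sum_congr rfl fun n _ => ?_
    rw [DirichletCharacter.sum_char_inv_mul_char_eq ℂ hau (n : ZMod m)]
    have h5 : (n ≡ a [MOD m]) ↔ ((a : ZMod m) = (n : ZMod m)) := by
      rw [← ZMod.natCast_eq_natCast_iff, eq_comm]
    by_cases h6 : n ≡ a [MOD m]
    · rw [if_pos h6, if_pos (h5.mp h6)]
      push_cast
      field_simp
    · rw [if_neg h6, if_neg (fun h => h6 (h5.mpr h))]
      simp
  rw [← Real.norm_eq_abs, ← Complex.norm_real, key, norm_mul]
  have h1 : ‖(1 / (Nat.totient m : ℂ))‖ = 1 / (Nat.totient m : ℝ) := by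
    rw [norm_div, norm_one, Complex.norm_natCast]
  rw [h1]
  apply mul_le_mul_of_nonneg_left _ (by positivity)
  refine (norm_sum_le _ _).trans (sum_le_sum ?_)
  intro χ _
  rw [norm_mul]
  exact mul_le_of_le_one_left (norm_nonneg _) (χ.norm_le_one _)

open Classical in
lemma step2' (m : ℕ) [NeZero m] (w : DirichletCharacter ℂ m → ℝ) (hw : ∀ χ, 0 ≤ w χ)
    (W : (f : ℕ) → DirichletCharacter ℂ f → ℝ)
    (hW : ∀ f (h : f ∣ m) (ψ : DirichletCharacter ℂ f),
      w (DirichletCharacter.changeLevel h ψ) ≤ W f ψ) :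
    ∑ χ : DirichletCharacter ℂ m, w χ ≤ ∑ f ∈ m.divisors, ∑ ψ ∈ Prim f, W f ψ := by
  have h1 : ∀ χ ∈ (univ : Finset (DirichletCharacter ℂ m)), χ.conductor ∈ m.divisors := by
    intro χ _
    exact Nat.mem_divisors.mpr ⟨χ.conductor_dvd_level, NeZero.ne m⟩
  rw [← sum_fiberwise_of_maps_to h1]
  apply sum_le_sum
  intro f hf
  rw [Nat.mem_divisors] at hf
  have hfm := hf.1
  have h2 : (((univ : Finset (DirichletCharacter ℂ m))).filter
      (fun χ => χ.conductor = f)) ⊆ (Prim f).image (DirichletCharacter.changeLevel hfm) := by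
    intro χ hχ
    rw [mem_filter] at hχ
    obtain ⟨_, hc⟩ := hχ
    subst hc
    rw [mem_image]
    refine ⟨χ.primitiveCharacter, ?_, χ.changeLevel_primitiveCharacter⟩
    unfold Prim
    rw [mem_filter]
    exact ⟨mem_univ _, χ.primitiveCharacter_isPrimitive⟩
  calc _ ≤ ∑ χ ∈ (Prim f).image (DirichletCharacter.changeLevel hfm), w χ :=
        sum_le_sum_of_subset_of_nonneg h2 fun χ _ _ => hw χ
    _ = ∑ ψ ∈ Prim f, w (DirichletCharacter.changeLevel hfm ψ) := by
        rw [sum_image]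
        intro x _ y _ hxy
        exact DirichletCharacter.changeLevel_injective hfm hxy
    _ ≤ _ := sum_le_sum fun ψ _ => hW f hfm ψ

lemma mob_cop (g n : ℕ) (hg : g ≠ 0) :
    ∑ e ∈ g.divisors, (if e ∣ n then ((ArithmeticFunction.moebius e : ℤ) : ℝ) else 0) =
      if n.Coprime g then 1 else 0 := by
  rw [← sum_filter]
  have h1 : g.divisors.filter (fun e => e ∣ n) = (n.gcd g).divisors := by
    ext e
    rw [mem_filter, Nat.mem_divisors, Nat.mem_divisors, Nat.dvd_gcd_iff]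
    have : n.gcd g ≠ 0 := Nat.gcd_ne_zero_right hg
    tauto
  have h2 : ∑ e ∈ (n.gcd g).divisors, ArithmeticFunction.moebius e =
      if n.gcd g = 1 then (1 : ℤ) else 0 := by
    rw [← ArithmeticFunction.coe_mul_zeta_apply, ArithmeticFunction.moebius_mul_coe_zeta,
      ArithmeticFunction.one_apply]
  rw [h1]
  have h3 : ∑ e ∈ (n.gcd g).divisors, ((ArithmeticFunction.moebius e : ℤ) : ℝ) =
      ((∑ e ∈ (n.gcd g).divisors, ArithmeticFunction.moebius e : ℤ) : ℝ) := by push_cast; rfl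
  rw [h3, h2]
  unfold Nat.Coprime
  split_ifs <;> simp

lemma multiples (K e : ℕ) (he : 1 ≤ e) (F : ℕ → ℂ) :
    ∑ n ∈ Icc 1 K, (if e ∣ n then F n else 0) = ∑ k ∈ Icc 1 (K / e), F (e * k) := by
  rw [← sum_filter]
  symm
  refine sum_bij (fun k _ => e * k) ?_ ?_ ?_ ?_
  · intro k hk
    rw [mem_Icc, Nat.le_div_iff_mul_le he] at hk
    rw [mem_filter, mem_Icc]
    refine ⟨⟨Nat.mul_pos he hk.1, ?_⟩, ⟨k, rfl⟩⟩
    rw [mul_comm]; exact hk.2
  · intro a _ b _ h
    exact Nat.eq_of_mul_eq_mul_left he h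
  · intro n hn
    rw [mem_filter, mem_Icc] at hn
    obtain ⟨⟨h1, h2⟩, k, hk⟩ := hn
    refine ⟨k, ?_, hk.symm⟩
    rw [mem_Icc, Nat.le_div_iff_mul_le he]
    constructor
    · by_contra h
      have : k = 0 := by omega
      rw [this] at hk; omega
    · rw [mul_comm, ← hk]; exact h2
  · intro k _; rfl

lemma TL_changeLevel (X : ℝ) (f g : ℕ) (hg : g ≠ 0) (h : f ∣ f * g) (ψ : DirichletCharacter ℂ f) :
    ‖TL X (f * g) (DirichletCharacter.changeLevel h ψ) la‖ ≤
      ∑ e ∈ g.divisors, ‖TL (X / e) f ψ la‖ := by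
  have e1 : TL X (f * g) (DirichletCharacter.changeLevel h ψ) la =
      ∑ n ∈ Icc 1 ⌊X⌋₊, ((if n.Coprime g then (1 : ℝ) else 0 : ℝ) : ℂ) *
        ((la n : ℂ) * ψ (n : ZMod f) * ((Real.log (X / n) : ℝ) : ℂ)) := by
    unfold TL
    refine sum_congr rfl fun b _ => ?_
    by_cases hb : b.Coprime (f * g)
    · have h1 := DirichletCharacter.changeLevel_eq_cast_of_dvd' ψ h (a := (b : ℤ))
        (by exact_mod_cast Nat.isCoprime_iff_coprime.mpr hb)
      push_cast at h1
      rw [h1, if_pos (Nat.Coprime.coprime_mul_left_right hb)]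
      push_cast
      ring
    · rw [MulChar.map_nonunit _ (fun hu => hb ((ZMod.isUnit_iff_coprime b _).mp hu)), mul_zero,
        zero_mul]
      split_ifs with hg'
      · have : ¬ b.Coprime f := fun hf => hb (Nat.Coprime.mul_right hf hg')
        rw [MulChar.map_nonunit _ (fun hu => this ((ZMod.isUnit_iff_coprime b _).mp hu))]
        simp
      · simp
  have e2 : TL X (f * g) (DirichletCharacter.changeLevel h ψ) la =
      ∑ e ∈ g.divisors, ((ArithmeticFunction.moebius e : ℤ) : ℂ) * (la e : ℂ) * ψ (e : ZMod f) *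
        TL (X / e) f ψ la := by
    rw [e1]
    have e3 : ∀ n ∈ Icc 1 ⌊X⌋₊, ((if n.Coprime g then (1 : ℝ) else 0 : ℝ) : ℂ) *
        ((la n : ℂ) * ψ (n : ZMod f) * ((Real.log (X / n) : ℝ) : ℂ)) =
        ∑ e ∈ g.divisors, ((ArithmeticFunction.moebius e : ℤ) : ℂ) *
          (if e ∣ n then (la n : ℂ) * ψ (n : ZMod f) * ((Real.log (X / n) : ℝ) : ℂ) else 0) := by
      intro n _
      rw [← mob_cop g n hg]
      push_cast
      rw [sum_mul]
      refine sum_congr rfl fun e _ => ?_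
      split_ifs <;> simp
    rw [sum_congr rfl e3, sum_comm]
    refine sum_congr rfl fun e he => ?_
    have he1 : 1 ≤ e := Nat.pos_of_mem_divisors he
    have he0 : (e : ℝ) ≠ 0 := by exact_mod_cast (by omega : e ≠ 0)
    rw [← mul_sum, multiples ⌊X⌋₊ e he1 (fun n => (la n : ℂ) * ψ (n : ZMod f) *
      ((Real.log (X / n) : ℝ) : ℂ))]
    unfold TL
    rw [Nat.floor_div_natCast, mul_sum, mul_sum]
    refine sum_congr rfl fun k _ => ?_
    have e4 : X / ((e * k : ℕ) : ℝ) = X / e / k := by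
      push_cast
      rw [div_div]
    rw [e4, la_mul, Nat.cast_mul, map_mul]
    push_cast
    ring
  rw [e2]
  refine (norm_sum_le _ _).trans (sum_le_sum fun e _ => ?_)
  rw [norm_mul, norm_mul, norm_mul]
  have h1 : ‖((ArithmeticFunction.moebius e : ℤ) : ℂ)‖ ≤ 1 := by
    have := ArithmeticFunction.abs_moebius_le_one (n := e)
    rw [Complex.norm_intCast]
    exact_mod_cast this
  have h2 : ‖(la e : ℂ)‖ ≤ 1 := by
    rw [Complex.norm_real]; exact la_abs e
  have h3 := ψ.norm_le_one (e : ZMod f)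
  have h4 : ‖((ArithmeticFunction.moebius e : ℤ) : ℂ)‖ * ‖(la e : ℂ)‖ * ‖ψ (e : ZMod f)‖ ≤ 1 := by
    calc _ ≤ (1:ℝ) * 1 * 1 := by gcongr
      _ = 1 := by norm_num
  exact mul_le_of_le_one_left (norm_nonneg _) h4

/-- one modulus -/
lemma TP_le' (X : ℝ) (m : ℕ) (hm : 1 ≤ m) (a : ℕ) (ha : a.Coprime m) :
    |TP X m a| ≤ ∑ i ∈ m.divisorsAntidiagonal, (1 / (Nat.totient (i.1 * i.2) : ℝ)) *
      ∑ e ∈ i.2.divisors, ∑ ψ ∈ Prim i.1, ‖TL (X / e) i.1 ψ la‖ := by
  classical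
  have : NeZero m := ⟨by omega⟩
  refine (TP_le X m a ha).trans ?_
  have h1 := step2' m (fun χ => ‖TL X m χ la‖) (fun χ => norm_nonneg _)
    (fun f ψ => ∑ e ∈ (m / f).divisors, ‖TL (X / e) f ψ la‖) (by
      intro f h ψ
      obtain ⟨g, rfl⟩ := h
      have hf : 0 < f := Nat.pos_of_ne_zero (by rintro rfl; simp at hm)
      have hg : g ≠ 0 := by rintro rfl; simp at hm
      rw [Nat.mul_div_cancel_left g hf]
      exact TL_changeLevel X f g hg _ ψ)
  refine (mul_le_mul_of_nonneg_left h1 (by positivity)).trans (le_of_eq ?_)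
  rw [Nat.sum_divisorsAntidiagonal (f := fun f g => (1 / (Nat.totient (f * g) : ℝ)) *
      ∑ e ∈ g.divisors, ∑ ψ ∈ Prim f, ‖TL (X / e) f ψ la‖), mul_sum]
  refine sum_congr rfl fun f hf => ?_
  rw [Nat.mul_div_cancel' (Nat.dvd_of_mem_divisors hf), sum_comm]

/-- sum over the moduli -/
theorem TP_sum (X : ℝ) (D : ℕ) (r : ℕ → ℕ) (hr : ∀ m ∈ Icc 1 D, Nat.Coprime (r m) m) (E : ℝ)
    (hE : ∀ e : ℕ, 1 ≤ e → ∑ f ∈ Icc 1 D, (1 / (Nat.totient f : ℝ)) *
      ∑ ψ ∈ Prim f, ‖TL (X / e) f ψ la‖ ≤ E) :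
    ∑ m ∈ Icc 1 D, |TP X m (r m)| ≤ ((1 + Real.log D) ^ 2 * (1 + Real.log D) ^ 2) * E := by
  have hE0 : 0 ≤ E := le_trans (sum_nonneg fun f _ => mul_nonneg (by positivity)
    (sum_nonneg fun _ _ => norm_nonneg _)) (hE 1 le_rfl)
  set W : ℕ → ℕ → ℝ := fun e f => ∑ ψ ∈ Prim f, ‖TL (X / e) f ψ la‖ with hW
  have hW0 : ∀ e f, 0 ≤ W e f := fun e f => sum_nonneg fun _ _ => norm_nonneg _
  have hH : ∑ g ∈ Icc 1 D, 1 / (Nat.totient g : ℝ) ≤ (1 + Real.log D) ^ 2 :=
    Pool.Agent.H316R2.sum_inv_tot D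
  have hH0 : 0 ≤ ∑ g ∈ Icc 1 D, 1 / (Nat.totient g : ℝ) := sum_nonneg fun _ _ => by positivity
  have hinv : ∀ a b : ℕ, 1 ≤ a → 1 ≤ b →
      1 / (Nat.totient (a * b) : ℝ) ≤ (1 / (Nat.totient a : ℝ)) * (1 / (Nat.totient b : ℝ)) := by
    intro a b ha hb
    have h1 : 0 < Nat.totient a := Nat.totient_pos.mpr ha
    have h2 : 0 < Nat.totient b := Nat.totient_pos.mpr hb
    have h3 := Nat.totient_super_multiplicative a b
    rw [one_div_mul_one_div]
    apply one_div_le_one_div_of_le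
    · exact_mod_cast Nat.mul_pos h1 h2
    · exact_mod_cast h3
  calc ∑ m ∈ Icc 1 D, |TP X m (r m)| ≤
      ∑ m ∈ Icc 1 D, ∑ i ∈ m.divisorsAntidiagonal, (1 / (Nat.totient (i.1 * i.2) : ℝ)) *
        ∑ e ∈ i.2.divisors, W e i.1 := by
        refine sum_le_sum fun m hm => ?_
        exact TP_le' X m (mem_Icc.1 hm).1 (r m) (hr m hm)
    _ = ∑ g ∈ Icc 1 D, ∑ f ∈ Icc 1 (D / g), (1 / (Nat.totient (f * g) : ℝ)) *
        ∑ e ∈ g.divisors, W e f :=
        hyperC D (fun f g => (1 / (Nat.totient (f * g) : ℝ)) * ∑ e ∈ g.divisors, W e f)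
    _ ≤ ∑ g ∈ Icc 1 D, ∑ f ∈ Icc 1 D, (1 / (Nat.totient g : ℝ)) *
        ∑ e ∈ g.divisors, (1 / (Nat.totient f : ℝ)) * W e f := by
        refine sum_le_sum fun g hg => ?_
        rw [mem_Icc] at hg
        have hsub : Icc 1 (D / g) ⊆ Icc 1 D := Icc_subset_Icc_right (Nat.div_le_self _ _)
        refine le_trans (sum_le_sum fun f hf => ?_)
          (sum_le_sum_of_subset_of_nonneg hsub fun f _ _ => mul_nonneg (by positivity)
            (sum_nonneg fun e _ => mul_nonneg (by positivity) (hW0 e f)))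
        rw [mem_Icc] at hf
        rw [← mul_sum, ← mul_assoc]
        refine mul_le_mul_of_nonneg_right ?_ (sum_nonneg fun e _ => hW0 e f)
        refine (hinv f g hf.1 hg.1).trans (le_of_eq (mul_comm _ _))
    _ = ∑ g ∈ Icc 1 D, (1 / (Nat.totient g : ℝ)) * ∑ e ∈ g.divisors,
        ∑ f ∈ Icc 1 D, (1 / (Nat.totient f : ℝ)) * W e f := by
        refine sum_congr rfl fun g _ => ?_
        rw [← mul_sum, sum_comm]
    _ ≤ ∑ g ∈ Icc 1 D, (1 / (Nat.totient g : ℝ)) * ∑ _e ∈ g.divisors, E := by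
        refine sum_le_sum fun g _ => mul_le_mul_of_nonneg_left (sum_le_sum fun e he => ?_) (by positivity)
        exact hE e (Nat.pos_of_mem_divisors he)
    _ = (∑ g ∈ Icc 1 D, ∑ i ∈ g.divisorsAntidiagonal, (1 / (Nat.totient (i.1 * i.2) : ℝ))) * E := by
        rw [sum_mul]
        refine sum_congr rfl fun g _ => ?_
        have h1 : ∑ i ∈ g.divisorsAntidiagonal, (1 / (Nat.totient (i.1 * i.2) : ℝ)) =
            ∑ _i ∈ g.divisorsAntidiagonal, (1 / (Nat.totient g : ℝ)) := by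
          refine sum_congr rfl fun i hi => ?_
          rw [(Nat.mem_divisorsAntidiagonal.1 hi).1]
        rw [h1, sum_const, sum_const, nsmul_eq_mul, nsmul_eq_mul]
        have h2 : g.divisorsAntidiagonal.card = g.divisors.card := by
          rw [← Nat.map_div_right_divisors, card_map]
        rw [h2]
        ring
    _ ≤ ((∑ g ∈ Icc 1 D, 1 / (Nat.totient g : ℝ)) * (∑ g ∈ Icc 1 D, 1 / (Nat.totient g : ℝ))) * E := by
        refine mul_le_mul_of_nonneg_right ?_ hE0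
        rw [hyperC D (fun a b => (1 / (Nat.totient (a * b) : ℝ))), sum_mul_sum]
        refine sum_le_sum fun c hc => ?_
        rw [mem_Icc] at hc
        refine le_trans (sum_le_sum fun b hb => ?_)
          (sum_le_sum_of_subset_of_nonneg (Icc_subset_Icc_right (Nat.div_le_self D c))
            fun b _ _ => by positivity)
        rw [mem_Icc] at hb
        exact (hinv b c hb.1 hc.1).trans (le_of_eq (mul_comm _ _))
    _ ≤ _ := by
        refine mul_le_mul_of_nonneg_right ?_ hE0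
        exact mul_le_mul hH hH hH0 (by positivity)

end

end Pool.Agent.N403.QG
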