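import Pool.Agent.N728.QG.Def
import Pool.Agent.N403.QG.LamAP

/-!
# QG/BVL: the theorem of Bombieri and Vinogradov for the Liouville function
-/

set_option autoImplicit false

namespace Pool.Agent.N403.QG

open Finset

noncomputable section

/-- sums over a residue class -/
def SP (K m a : ℕ) : ℝ := ∑ n ∈ (Icc 1 K).filter (fun n => n ≡ a [MOD m]), la n

lemma card_class (a b m r : ℕ) (hm : 1 ≤ m) (hab : a ≤ b) :
    (((Ioc a b).filter (fun n => n ≡ r [MOD m])).card : ℝ) ≤ ((b : ℝ) - a) / m + 1 := by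
  have hm0 : (0:ℝ) < m := by exact_mod_cast hm
  have h := Nat.Ioc_filter_modEq_card a b (r := m) (by omega) r
  have h2 : ((((Ioc a b).filter (fun n => n ≡ r [MOD m])).card : ℤ) : ℝ) ≤ ((b : ℝ) - a) / m + 1 := by
    rw [h, Int.cast_max, max_le_iff]
    constructor
    · have h3 := Int.floor_le (((b : ℚ) - r) / m)
      have h4 := Int.lt_floor_add_one (((a : ℚ) - r) / m)
      have h5 : (((⌊((b : ℚ) - r) / m⌋ - ⌊((a : ℚ) - r) / m⌋ : ℤ)) : ℚ) ≤ ((b : ℚ) - a) / m + 1 := by
        push_cast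
        have : ((b : ℚ) - a) / m = ((b : ℚ) - r) / m - ((a : ℚ) - r) / m := by ring
        rw [this]
        linarith
      generalize (⌊((b : ℚ) - r) / m⌋ - ⌊((a : ℚ) - r) / m⌋ : ℤ) = z at h5 ⊢
      have h6 := (Rat.cast_le (K := ℝ)).2 h5
      push_cast at h6
      exact h6
    · have : (a : ℝ) ≤ b := by exact_mod_cast hab
      have : 0 ≤ ((b : ℝ) - a) / m := div_nonneg (by linarith) hm0.le
      push_cast
      linarith
  exact_mod_cast h2

lemma abs_sum_class (a b m r : ℕ) (hm : 1 ≤ m) (hab : a ≤ b) (F : ℕ → ℝ) (C : ℝ)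
    (hF : ∀ n ∈ Ioc a b, |F n| ≤ C) (hC : 0 ≤ C) :
    |∑ n ∈ (Ioc a b).filter (fun n => n ≡ r [MOD m]), F n| ≤ (((b : ℝ) - a) / m + 1) * C := by
  refine (abs_sum_le_sum_abs _ _).trans ?_
  calc ∑ n ∈ (Ioc a b).filter (fun n => n ≡ r [MOD m]), |F n| ≤
      ∑ n ∈ (Ioc a b).filter (fun n => n ≡ r [MOD m]), C :=
        sum_le_sum fun n hn => hF n (mem_filter.1 hn).1
    _ = (((Ioc a b).filter (fun n => n ≡ r [MOD m])).card : ℝ) * C := by rw [sum_const, nsmul_eq_mul]
    _ ≤ _ := mul_le_mul_of_nonneg_right (card_class a b m r hm hab) hC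

lemma split_class (K K' m a : ℕ) (h : K ≤ K') (F : ℕ → ℝ) :
    ∑ n ∈ (Icc 1 K').filter (fun n => n ≡ a [MOD m]), F n =
      ∑ n ∈ (Icc 1 K).filter (fun n => n ≡ a [MOD m]), F n +
      ∑ n ∈ (Ioc K K').filter (fun n => n ≡ a [MOD m]), F n := by
  rw [← sum_union]
  · refine sum_congr ?_ fun _ _ => rfl
    ext n
    simp only [mem_union, mem_filter, mem_Icc, mem_Ioc]
    constructor
    · rintro ⟨h1, h2⟩
      by_cases h3 : n ≤ K
      · exact Or.inl ⟨⟨h1.1, h3⟩, h2⟩
      · exact Or.inr ⟨⟨by omega, h1.2⟩, h2⟩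
    · rintro (⟨h1, h2⟩ | ⟨h1, h2⟩)
      · exact ⟨⟨h1.1, by omega⟩, h2⟩
      · exact ⟨⟨by omega, h1.2⟩, h2⟩
  · rw [disjoint_left]
    intro n h1 h2
    rw [mem_filter, mem_Icc] at h1
    rw [mem_filter, mem_Ioc] at h2
    omega

/-- removal of the logarithmic weight -/
lemma unsmooth (K m a : ℕ) (hK : 1 ≤ K) (hm : 1 ≤ m) (δ : ℝ) (hδ : 0 < δ) (hδ1 : δ ≤ 1) :
    |SP K m a| ≤ (2 / δ) * (|TP ((1 + δ) * K) m a| + |TP (K : ℝ) m a|) + (δ * K / m + 1) := by
  have hK0 : (0:ℝ) < K := by exact_mod_cast hK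
  have hm0 : (0:ℝ) < m := by exact_mod_cast hm
  set ρ := 1 + δ with hρ
  have hρ0 : 0 < ρ := by linarith
  set l := Real.log ρ with hl
  have hl1 : δ / 2 ≤ l := by
    have h1 := Real.one_sub_inv_le_log_of_pos hρ0
    have h2 : δ / 2 ≤ 1 - ρ⁻¹ := by
      have h3 : 1 - ρ⁻¹ = δ / ρ := by rw [hρ]; field_simp; ring
      rw [h3]
      exact div_le_div_of_nonneg_left hδ.le hρ0 (by linarith)
    linarith
  have hl0 : 0 < l := by linarith
  set K' := ⌊ρ * K⌋₊ with hK'
  have hKK' : K ≤ K' := by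
    rw [hK']
    apply Nat.le_floor
    nlinarith
  have hK'le : (K' : ℝ) ≤ ρ * K := Nat.floor_le (by positivity)
  have e1 : TP (ρ * K) m a = ∑ n ∈ (Icc 1 K).filter (fun n => n ≡ a [MOD m]), la n * Real.log (ρ * K / n) +
      ∑ n ∈ (Ioc K K').filter (fun n => n ≡ a [MOD m]), la n * Real.log (ρ * K / n) := by
    unfold TP
    rw [← hK', split_class K K' m a hKK']
  have e2 : TP (K : ℝ) m a = ∑ n ∈ (Icc 1 K).filter (fun n => n ≡ a [MOD m]), la n * Real.log (K / n) := by
    unfold TP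
    rw [Nat.floor_natCast]
  have e3 : ∑ n ∈ (Icc 1 K).filter (fun n => n ≡ a [MOD m]), la n * Real.log (ρ * K / n) =
      SP K m a * l + TP (K : ℝ) m a := by
    rw [e2, SP, sum_mul, ← sum_add_distrib]
    refine sum_congr rfl fun n hn => ?_
    rw [mem_filter, mem_Icc] at hn
    have hn0 : (0:ℝ) < n := by exact_mod_cast hn.1.1
    rw [mul_div_assoc, Real.log_mul hρ0.ne' (by positivity)]
    ring
  have e4 : |∑ n ∈ (Ioc K K').filter (fun n => n ≡ a [MOD m]), la n * Real.log (ρ * K / n)| ≤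
      (((K' : ℝ) - K) / m + 1) * l := by
    refine abs_sum_class K K' m a hm hKK' _ l (fun n hn => ?_) hl0.le
    rw [mem_Ioc] at hn
    have hn1 : (K : ℝ) < n := by exact_mod_cast hn.1
    have hn2 : (n : ℝ) ≤ K' := by exact_mod_cast hn.2
    have hn0 : (0:ℝ) < n := by linarith
    rw [abs_mul]
    have h1 : |Real.log (ρ * K / n)| ≤ l := by
      rw [abs_of_nonneg]
      · apply Real.log_le_log (by positivity)
        rw [div_le_iff₀ hn0]
        nlinarith
      · apply Real.log_nonneg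
        rw [le_div_iff₀ hn0]
        linarith
    calc |la n| * |Real.log (ρ * K / n)| ≤ 1 * l :=
          mul_le_mul (la_abs n) h1 (abs_nonneg _) zero_le_one
      _ = l := one_mul l
  have e5 : SP K m a * l = TP (ρ * K) m a - TP (K : ℝ) m a -
      ∑ n ∈ (Ioc K K').filter (fun n => n ≡ a [MOD m]), la n * Real.log (ρ * K / n) := by
    rw [e1, e3]; ring
  have e6 : |SP K m a| * l ≤ |TP (ρ * K) m a| + |TP (K : ℝ) m a| + (((K' : ℝ) - K) / m + 1) * l := by
    rw [← abs_of_pos hl0, ← abs_mul, abs_of_pos hl0, e5]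
    have h1 := abs_sub (TP (ρ * K) m a - TP (K : ℝ) m a)
      (∑ n ∈ (Ioc K K').filter (fun n => n ≡ a [MOD m]), la n * Real.log (ρ * K / n))
    have h2 := abs_sub (TP (ρ * K) m a) (TP (K : ℝ) m a)
    linarith
  have e7 : |SP K m a| ≤ (|TP (ρ * K) m a| + |TP (K : ℝ) m a|) / l + (((K' : ℝ) - K) / m + 1) := by
    rw [← sub_le_iff_le_add, le_div_iff₀ hl0]
    nlinarith
  refine e7.trans (add_le_add ?_ ?_)
  · rw [div_eq_mul_inv, mul_comm]
    refine mul_le_mul_of_nonneg_right ?_ (by positivity)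
    rw [inv_le_comm₀ hl0 (by positivity), inv_div]
    exact hl1
  · have h1 : (K' : ℝ) - K ≤ δ * K := by
      rw [hρ] at hK'le; linarith
    have h2 : ((K' : ℝ) - K) / m ≤ δ * K / m := by gcongr
    linarith

/-- one height -/
theorem one_height (U : ℕ) : ∃ B N0 : ℕ, ∀ N : ℕ, N0 ≤ N → ∀ D : ℕ,
    (D : ℝ) ≤ √(N : ℝ) / Real.log N ^ B → ∀ r : ℕ → ℕ, (∀ m ∈ Icc 1 D, Nat.Coprime (r m) m) →
    ∀ K : ℕ, 2 * K ≤ N → ∑ m ∈ Icc 1 D, |SP K m (r m)| ≤ N / Real.log N ^ U := by
  obtain ⟨B0, N1, h1⟩ := bvL (2 * U + 12)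
  obtain ⟨N2, h2⟩ := ev_lg 100
  obtain ⟨N3, h3⟩ := ev_log (U + 3) 4
  refine ⟨B0, max N1 (max N2 (max N3 4)), fun N hN D hD r hr K hK => ?_⟩
  have g1 := h1 N ((le_max_left _ _).trans hN) D hD
  have hL : 100 ≤ Real.log N := h2 N (le_trans (le_max_left _ _) ((le_max_right _ _).trans hN))
  have g3 := h3 N (le_trans (le_trans (le_max_left _ _) (le_max_right _ _)) ((le_max_right _ _).trans hN))
  have hN4 : 4 ≤ N := le_trans (le_trans (le_max_right _ _) (le_max_right _ _)) ((le_max_right _ _).trans hN)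
  have hNr : (4:ℝ) ≤ N := by exact_mod_cast hN4
  set L := Real.log N with hLdef
  have hL0 : 0 < L := by linarith
  have hL1 : 1 ≤ L := by linarith
  set s := √(N : ℝ) with hs
  have hss : s * s = N := Real.mul_self_sqrt (by linarith)
  have hs0 : 0 < s := Real.sqrt_pos.mpr (by linarith)
  have hs1 : 1 ≤ s := Real.one_le_sqrt.mpr (by linarith)
  have hgoal0 : 0 ≤ (N : ℝ) / L ^ U := by positivity
  rcases Nat.eq_zero_or_pos K with hK0 | hK0
  · subst hK0
    have : ∀ m ∈ Icc 1 D, |SP 0 m (r m)| = 0 := by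
      intro m _
      unfold SP
      simp
    rw [sum_eq_zero this]
    exact hgoal0
  rcases Nat.eq_zero_or_pos D with hD0 | hD0
  · subst hD0
    simpa using hgoal0
  have hKr : (1:ℝ) ≤ K := by exact_mod_cast hK0
  have hKN : 2 * (K:ℝ) ≤ N := by exact_mod_cast hK
  have hDr : (1:ℝ) ≤ D := by exact_mod_cast hD0
  have hDs : (D:ℝ) ≤ s := hD.trans (div_le_self hs0.le (one_le_pow₀ hL1))
  have hlD0 : 0 ≤ Real.log D := Real.log_natCast_nonneg D
  have hlD : 1 + Real.log D ≤ 2 * L := by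
    have : Real.log D ≤ L := Real.log_le_log (by linarith) (hDs.trans (by nlinarith))
    linarith
  -- the parameter
  set δ : ℝ := 1 / L ^ (U + 3) with hδ
  have hδ0 : 0 < δ := by positivity
  have hδ1 : δ ≤ 1 := by
    rw [hδ, div_le_one (by positivity)]
    exact one_le_pow₀ hL1
  have hTP : ∀ X : ℝ, 0 ≤ X → X ≤ N → ∑ m ∈ Icc 1 D, |TP X m (r m)| ≤
      (2 * L) ^ 4 * (N / L ^ (2 * U + 12)) := by
    intro X hX0 hXN
    refine (TP_sum X D r hr (N / L ^ (2 * U + 12)) (fun e he => ?_)).trans ?_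
    · have he1 : (1:ℝ) ≤ e := by exact_mod_cast he
      exact g1 (X / e) (by positivity) ((div_le_self hX0 he1).trans hXN)
    · refine mul_le_mul_of_nonneg_right ?_ (by positivity)
      rw [← pow_add]
      exact pow_le_pow_left₀ (by linarith) hlD 4
  have t1 := hTP ((1 + δ) * K) (by positivity) (by nlinarith)
  have t2 := hTP (K : ℝ) (by positivity) (by linarith)
  have t3 : ∑ m ∈ Icc 1 D, (δ * K / m + 1) ≤ δ * K * (2 * L) + D := by
    rw [sum_add_distrib]
    refine add_le_add ?_ (by simp)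
    have h5 : ∑ m ∈ Icc 1 D, δ * K / (m : ℝ) = δ * K * ∑ m ∈ Icc 1 D, (1 / (m : ℝ)) := by
      rw [mul_sum]
      exact sum_congr rfl fun m _ => by ring
    rw [h5]
    refine mul_le_mul_of_nonneg_left ?_ (by positivity)
    exact (Pool.Agent.H398R2.BV.harm_le' D).trans hlD
  calc ∑ m ∈ Icc 1 D, |SP K m (r m)| ≤ ∑ m ∈ Icc 1 D,
        ((2 / δ) * (|TP ((1 + δ) * K) m (r m)| + |TP (K : ℝ) m (r m)|) + (δ * K / m + 1)) := by
        refine sum_le_sum fun m hm => unsmooth K m (r m) hK0 (mem_Icc.1 hm).1 δ hδ0 hδ1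
    _ = (2 / δ) * (∑ m ∈ Icc 1 D, |TP ((1 + δ) * K) m (r m)| + ∑ m ∈ Icc 1 D, |TP (K : ℝ) m (r m)|) +
        ∑ m ∈ Icc 1 D, (δ * K / m + 1) := by
        rw [sum_add_distrib, ← mul_sum, sum_add_distrib]
    _ ≤ (2 / δ) * ((2 * L) ^ 4 * (N / L ^ (2 * U + 12)) + (2 * L) ^ 4 * (N / L ^ (2 * U + 12))) +
        (δ * K * (2 * L) + D) := by
        gcongr
    _ ≤ N / L ^ U := by
        have u1 : (2 / δ) * ((2 * L) ^ 4 * (N / L ^ (2 * U + 12)) + (2 * L) ^ 4 * (N / L ^ (2 * U + 12))) ≤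
            (1 / 4) * (N / L ^ U) := by
          have e1 : (2 / δ) * ((2 * L) ^ 4 * (N / L ^ (2 * U + 12)) + (2 * L) ^ 4 * (N / L ^ (2 * U + 12))) =
              (N / L ^ U) * (64 / L ^ 5) := by
            have e2 : L ^ (2 * U + 12) = L ^ U * L ^ U * L ^ 12 := by
              rw [← pow_add, ← pow_add]; ring_nf
            have e3 : L ^ (U + 3) = L ^ U * L ^ 3 := by rw [pow_add]
            rw [hδ, e2, e3]
            field_simp
            ring
          rw [e1, mul_comm (1 / 4 : ℝ)]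
          refine mul_le_mul_of_nonneg_left ?_ hgoal0
          rw [div_le_div_iff₀ (by positivity) (by norm_num)]
          have : (100:ℝ) ^ 5 ≤ L ^ 5 := pow_le_pow_left₀ (by norm_num) hL 5
          nlinarith
        have u2 : δ * K * (2 * L) ≤ (1 / 4) * (N / L ^ U) := by
          have e1 : δ * K * (2 * L) = (2 * K / L ^ U) * (1 / L ^ 2) := by
            have e3 : L ^ (U + 3) = L ^ U * L ^ 3 := by rw [pow_add]
            rw [hδ, e3]
            field_simp
          rw [e1, mul_comm (1 / 4 : ℝ)]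
          refine mul_le_mul ?_ ?_ (by positivity) hgoal0
          · gcongr
          · refine one_div_le_one_div_of_le (by norm_num) ?_
            nlinarith
        have u3 : (D : ℝ) ≤ (1 / 4) * (N / L ^ U) := by
          have h5 : 4 * L ^ U ≤ s := by
            refine le_trans ?_ g3
            exact mul_le_mul_of_nonneg_left (pow_le_pow_right₀ hL1 (by omega)) (by norm_num)
          refine hDs.trans ?_
          rw [← mul_div_assoc, le_div_iff₀ (by positivity)]
          nlinarith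
        linarith

/-! ### free heights -/

lemma lam_la (n : ℕ) : Pool.Agent.N728.QG.lam (n : ℤ) = la n := by
  unfold Pool.Agent.N728.QG.lam
  rcases eq_or_ne n 0 with rfl | hn
  · simp [la_zero]
  · rw [if_neg (by exact_mod_cast hn), la_eq hn, Int.natAbs_natCast]

/-- the value at `h` is controlled by the values on a grid -/
lemma grid (x J m a h : ℕ) (hJ : 1 ≤ J) (hm : 1 ≤ m) (hx : 1 ≤ x) (hh : h ≤ x) :
    |SP h m a| ≤ ∑ i ∈ range (J + 1), |SP (x * i / J) m a| + (((x : ℝ) / J + 1) / m + 1) := by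
  have hm0 : (0:ℝ) < m := by exact_mod_cast hm
  have hJ0 : (0:ℝ) < J := by exact_mod_cast hJ
  set i := h * J / x with hi
  have h1 : i * x ≤ h * J := Nat.div_mul_le_self _ _
  have h2 : h * J < (i + 1) * x := by
    have := Nat.lt_div_mul_add (a := h * J) hx
    rw [← hi] at this
    nlinarith
  have hiJ : i ≤ J := by
    rw [hi]
    refine Nat.div_le_of_le_mul ?_
    exact Nat.mul_le_mul_right _ hh
  set k := x * i / J with hk
  have h3 : k * J ≤ x * i := Nat.div_mul_le_self _ _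
  have h4 : x * i < (k + 1) * J := by
    have := Nat.lt_div_mul_add (a := x * i) hJ
    rw [← hk] at this
    nlinarith
  have hkh : k ≤ h := by
    have : k * J ≤ h * J := by nlinarith
    exact Nat.le_of_mul_le_mul_right this hJ
  have h5 : (h : ℝ) - k ≤ x / J + 1 := by
    have e1 : (h : ℝ) * J < (i + 1) * x := by exact_mod_cast h2
    have e2 : (x : ℝ) * i < (k + 1) * J := by exact_mod_cast h4
    rw [← sub_le_iff_le_add, le_div_iff₀ hJ0]
    nlinarith
  have h6 : SP h m a = SP k m a + ∑ n ∈ (Ioc k h).filter (fun n => n ≡ a [MOD m]), la n :=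
    split_class k h m a hkh la
  have h7 := abs_sum_class k h m a hm hkh la 1 (fun n _ => la_abs n) zero_le_one
  rw [mul_one] at h7
  have h8 : |SP k m a| ≤ ∑ i ∈ range (J + 1), |SP (x * i / J) m a| :=
    single_le_sum (f := fun i => |SP (x * i / J) m a|) (fun i _ => abs_nonneg _)
      (mem_range.2 (by omega))
  have h9 : ((h : ℝ) - k) / m ≤ (x / J + 1) / m := by gcongr
  rw [h6]
  refine (abs_add_le _ _).trans ?_
  linarith

/-- **BVL**. -/
theorem t_BVL : Pool.Agent.N728.QG.S_BVL := by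
  intro A
  obtain ⟨B, N0, h0⟩ := one_height (2 * A + 8)
  obtain ⟨N1, h1⟩ := ev_lg (1000 + 2 ^ B)
  obtain ⟨N2, h2⟩ := ev_log (A + 2) 8
  refine ⟨2 * B + 2, max N0 (max N1 (max N2 4)), fun x hx D hD r h hr hh => ?_⟩
  have g0 := h0 (2 * x) (le_trans ((le_max_left _ _).trans hx) (by omega))
  have hLB : 1000 + 2 ^ B ≤ Real.log x :=
    h1 x (le_trans (le_max_left _ _) ((le_max_right _ _).trans hx))
  have h2B : (0:ℝ) < 2 ^ B := by positivity
  have hL : 1000 ≤ Real.log x := by linarith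
  have g2 := h2 x (le_trans (le_trans (le_max_left _ _) (le_max_right _ _)) ((le_max_right _ _).trans hx))
  have hx4 : 4 ≤ x := le_trans (le_trans (le_max_right _ _) (le_max_right _ _)) ((le_max_right _ _).trans hx)
  have hxr : (4:ℝ) ≤ x := by exact_mod_cast hx4
  set L := Real.log x with hLdef
  have hL0 : 0 < L := by linarith
  have hL1 : 1 ≤ L := by linarith
  set s := √(x : ℝ) with hs
  have hss : s * s = x := Real.mul_self_sqrt (by linarith)
  have hs0 : 0 < s := Real.sqrt_pos.mpr (by linarith)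
  have hs1 : 1 ≤ s := Real.one_le_sqrt.mpr (by linarith)
  have hgoal0 : 0 ≤ (x : ℝ) / L ^ A := by positivity
  have hL2 : L ≤ Real.log ((2 * x : ℕ) : ℝ) :=
    Real.log_le_log (by linarith) (by push_cast; linarith)
  have hL2' : Real.log ((2 * x : ℕ) : ℝ) ≤ 2 * L := by
    push_cast
    rw [Real.log_mul (by norm_num) (by linarith)]
    have : Real.log 2 ≤ L := Real.log_le_log (by norm_num) (by linarith)
    linarith
  set L' := Real.log ((2 * x : ℕ) : ℝ) with hL'
  have hL'0 : 0 < L' := by linarith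
  -- the level
  have hDs : (D : ℝ) * L ^ (B + 1) ≤ s := by
    apply Real.le_sqrt_of_sq_le
    calc ((D : ℝ) * L ^ (B + 1)) ^ 2 = (D : ℝ) ^ 2 * L ^ (2 * B + 2) := by
          rw [mul_pow, ← pow_mul]; ring_nf
      _ ≤ (x : ℝ) := hD
  have hDs1 : (D : ℝ) ≤ s := by
    refine le_trans ?_ hDs
    exact le_mul_of_one_le_right (Nat.cast_nonneg _) (one_le_pow₀ hL1)
  have hD2 : (D : ℝ) ≤ √((2 * x : ℕ) : ℝ) / L' ^ B := by
    rw [le_div_iff₀ (by positivity)]
    have e1 : s ≤ √((2 * x : ℕ) : ℝ) := Real.sqrt_le_sqrt (by push_cast; linarith)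
    refine le_trans ?_ e1
    refine le_trans ?_ hDs
    refine mul_le_mul_of_nonneg_left ?_ (Nat.cast_nonneg _)
    calc L' ^ B ≤ (2 * L) ^ B := pow_le_pow_left₀ hL'0.le hL2' _
      _ = 2 ^ B * L ^ B := mul_pow _ _ _
      _ ≤ L * L ^ B := by
          refine mul_le_mul_of_nonneg_right ?_ (by positivity)
          linarith
      _ = L ^ (B + 1) := by rw [pow_succ, mul_comm]
  -- the grid
  set J := ⌈L ^ (A + 3)⌉₊ with hJ
  have hLA : 1 ≤ L ^ (A + 3) := one_le_pow₀ hL1
  have hJ1 : L ^ (A + 3) ≤ J := Nat.le_ceil _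
  have hJ2 : (J : ℝ) ≤ 2 * L ^ (A + 3) := by
    have := Nat.ceil_lt_add_one (show 0 ≤ L ^ (A + 3) by positivity)
    linarith
  have hJ0 : 1 ≤ J := by
    have : (1:ℝ) ≤ J := hLA.trans hJ1
    exact_mod_cast this
  have hlD0 : 0 ≤ Real.log D := Real.log_natCast_nonneg D
  have hharm : ∑ m ∈ Icc 1 D, (1 / (m : ℝ)) ≤ 2 * L := by
    refine (Pool.Agent.H398R2.BV.harm_le' D).trans ?_
    rcases Nat.eq_zero_or_pos D with hD0 | hD0
    · subst hD0; simp; linarith
    · have hDr : (1:ℝ) ≤ D := by exact_mod_cast hD0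
      have : Real.log D ≤ L := Real.log_le_log (by linarith) (hDs1.trans (by nlinarith))
      linarith
  have hgrid : ∀ i ∈ range (J + 1), ∑ m ∈ Icc 1 D, |SP (x * i / J) m (r m)| ≤ 2 * x / L ^ (2 * A + 8) := by
    intro i hi
    rw [mem_range] at hi
    have e1 : x * i / J ≤ x := by
      refine Nat.div_le_of_le_mul ?_
      rw [mul_comm]
      exact Nat.mul_le_mul_right _ (by omega)
    refine (g0 D hD2 r hr (x * i / J) (by omega)).trans ?_
    push_cast
    refine div_le_div_of_nonneg_left (by linarith) (by positivity) ?_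
    exact pow_le_pow_left₀ hL0.le hL2 _
  have e0 : ∀ m ∈ Icc 1 D, |∑ n ∈ (Icc 1 (h m)).filter (fun n => n ≡ r m [MOD m]),
      Pool.Agent.N728.QG.lam n| = |SP (h m) m (r m)| := by
    intro m _
    unfold SP
    congr 1
    exact sum_congr rfl fun n _ => lam_la n
  rw [sum_congr rfl e0]
  calc ∑ m ∈ Icc 1 D, |SP (h m) m (r m)| ≤
      ∑ m ∈ Icc 1 D, (∑ i ∈ range (J + 1), |SP (x * i / J) m (r m)| +
        (((x : ℝ) / J + 1) / m + 1)) :=
        sum_le_sum fun m hm => grid x J m (r m) (h m) hJ0 (mem_Icc.1 hm).1 (by omega) (hh m)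
    _ = ∑ i ∈ range (J + 1), ∑ m ∈ Icc 1 D, |SP (x * i / J) m (r m)| +
        (((x : ℝ) / J + 1) * ∑ m ∈ Icc 1 D, (1 / (m : ℝ)) + D) := by
        rw [sum_add_distrib, sum_comm, sum_add_distrib, mul_sum]
        congr 2
        · exact sum_congr rfl fun m _ => by ring
        · simp
    _ ≤ ∑ i ∈ range (J + 1), 2 * x / L ^ (2 * A + 8) + (((x : ℝ) / L ^ (A + 3) + 1) * (2 * L) + s) := by
        refine add_le_add (sum_le_sum hgrid) (add_le_add ?_ hDs1)
        refine mul_le_mul ?_ hharm (sum_nonneg fun _ _ => by positivity) (by positivity)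
        have : (x : ℝ) / J ≤ x / L ^ (A + 3) :=
          div_le_div_of_nonneg_left (by linarith) (by positivity) hJ1
        linarith
    _ ≤ x / L ^ A := by
        rw [sum_const, card_range, nsmul_eq_mul]
        have u1 : ((J + 1 : ℕ) : ℝ) * (2 * x / L ^ (2 * A + 8)) ≤ (1 / 4) * (x / L ^ A) := by
          have e1 : ((J + 1 : ℕ) : ℝ) ≤ 3 * L ^ (A + 3) := by push_cast; linarith
          calc ((J + 1 : ℕ) : ℝ) * (2 * x / L ^ (2 * A + 8)) ≤
              (3 * L ^ (A + 3)) * (2 * x / L ^ (2 * A + 8)) := by gcongr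
            _ = (x / L ^ A) * (6 / L ^ 5) := by
                have e2 : L ^ (2 * A + 8) = L ^ A * L ^ A * L ^ 8 := by
                  rw [← pow_add, ← pow_add]; ring_nf
                have e3 : L ^ (A + 3) = L ^ A * L ^ 3 := by rw [pow_add]
                rw [e2, e3]
                field_simp
                ring
            _ ≤ (x / L ^ A) * (1 / 4) := by
                refine mul_le_mul_of_nonneg_left ?_ hgoal0
                rw [div_le_div_iff₀ (by positivity) (by norm_num)]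
                have : (1000:ℝ) ^ 5 ≤ L ^ 5 := pow_le_pow_left₀ (by norm_num) hL 5
                linarith
            _ = _ := by ring
        have u2 : (x : ℝ) / L ^ (A + 3) * (2 * L) ≤ (1 / 8) * (x / L ^ A) := by
          have e3 : L ^ (A + 3) = L ^ A * L ^ 3 := by rw [pow_add]
          have e1 : (x : ℝ) / L ^ (A + 3) * (2 * L) = (x / L ^ A) * (2 / L ^ 2) := by
            rw [e3]
            field_simp
          rw [e1, mul_comm (1 / 8 : ℝ)]
          refine mul_le_mul_of_nonneg_left ?_ hgoal0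
          rw [div_le_div_iff₀ (by positivity) (by norm_num)]
          nlinarith
        have u3 : 2 * L ≤ (1 / 8) * (x / L ^ A) := by
          rw [← mul_div_assoc, le_div_iff₀ (by positivity)]
          have e1 : 16 * (L * L ^ A) ≤ s := by
            refine le_trans ?_ g2
            have e2 : L ^ (A + 2) = L * (L * L ^ A) := by rw [pow_add]; ring
            rw [e2]
            have : 0 < L * L ^ A := by positivity
            nlinarith
          nlinarith
        have u4 : s ≤ (1 / 4) * (x / L ^ A) := by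
          have h5 : 4 * L ^ A ≤ s := by
            refine le_trans ?_ g2
            have : L ^ A ≤ L ^ (A + 2) := pow_le_pow_right₀ hL1 (by omega)
            have : 0 < L ^ A := by positivity
            linarith
          rw [← mul_div_assoc, le_div_iff₀ (by positivity)]
          nlinarith
        linarith

end

end Pool.Agent.N403.QG
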