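import Pool.Agent.N403.QG.LamLog

/-!
# QG/BVL, part 3: Bombieri-Vinogradov for the Liouville function and primitive characters
-/

set_option autoImplicit false

namespace Pool.Agent.N403.QG

open Finset Pool.Agent.Helper112 Pool.Agent.Helper112.BLB Pool.Agent.Helper112.TI
open Pool.Agent.Helper112.TII Pool.Agent.H398R2.BV

noncomputable section

/-! ### type I -/

lemma sum_la1 (V N : ℕ) : ∑ n ∈ Icc 1 N, |la1 V n| ≤ V := by
  calc ∑ n ∈ Icc 1 N, |la1 V n| ≤ ∑ n ∈ Icc 1 N, (if n ≤ V then (1:ℝ) else 0) := by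
        apply sum_le_sum
        intro n _
        rw [la1_apply]
        split_ifs
        · exact la_abs n
        · simp
    _ = (((Icc 1 N).filter (fun n => n ≤ V)).card : ℝ) := by
        rw [← sum_filter, sum_const, nsmul_eq_mul, mul_one]
    _ ≤ V := by
        have h1 : (Icc 1 N).filter (fun n => n ≤ V) ⊆ Icc 1 V := by
          intro n hn
          rw [mem_filter, mem_Icc] at hn
          rw [mem_Icc]; omega
        have h2 := card_le_card h1
        rw [Nat.card_Icc] at h2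
        exact_mod_cast (by omega : ((Icc 1 N).filter (fun n => n ≤ V)).card ≤ V)

lemma sum_convL (V N : ℕ) : ∑ n ∈ Icc 1 N, |(mu1 V * la1 V) n| ≤ V * V := by
  calc ∑ n ∈ Icc 1 N, |(mu1 V * la1 V) n| ≤
      ∑ n ∈ Icc 1 N, ∑ i ∈ n.divisorsAntidiagonal, |mu1 V i.1| * |la1 V i.2| := by
        apply sum_le_sum
        intro n _
        rw [ArithmeticFunction.mul_apply]
        refine (abs_sum_le_sum_abs _ _).trans (le_of_eq ?_)
        exact sum_congr rfl fun i _ => abs_mul _ _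
    _ = ∑ c ∈ Icc 1 N, ∑ b ∈ Icc 1 (N / c), |mu1 V b| * |la1 V c| :=
        hyperC N (fun b c => |mu1 V b| * |la1 V c|)
    _ = ∑ c ∈ Icc 1 N, (∑ b ∈ Icc 1 (N / c), |mu1 V b|) * |la1 V c| := by
        exact sum_congr rfl fun c _ => (sum_mul _ _ _).symm
    _ ≤ ∑ c ∈ Icc 1 N, (V : ℝ) * |la1 V c| :=
        sum_le_sum fun c _ => mul_le_mul_of_nonneg_right (sum_mu1 V _) (abs_nonneg _)
    _ = V * ∑ c ∈ Icc 1 N, |la1 V c| := by rw [mul_sum]
    _ ≤ V * V := mul_le_mul_of_nonneg_left (sum_la1 V N) (Nat.cast_nonneg _)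

lemma sum_sqA (M : ℕ) : ∑ b ∈ Icc 1 M, sqA b ≤ √(M : ℝ) := by
  classical
  have h1 : ∑ b ∈ Icc 1 M, sqA b = (((Icc 1 M).filter (fun b => b ≠ 0 ∧ IsSquare b)).card : ℝ) := by
    rw [card_filter]
    push_cast
    exact sum_congr rfl fun b _ => by rw [sqA_apply]
  rw [h1]
  have h2 : (Icc 1 M).filter (fun b => b ≠ 0 ∧ IsSquare b) ⊆ (Icc 1 (Nat.sqrt M)).image (fun m => m * m) := by
    intro b hb
    rw [mem_filter, mem_Icc] at hb
    obtain ⟨⟨hb1, hb2⟩, _, m, hm⟩ := hb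
    rw [mem_image]
    refine ⟨m, ?_, hm.symm⟩
    rw [mem_Icc]
    constructor
    · by_contra h
      have : m = 0 := by omega
      rw [this] at hm; omega
    · rw [Nat.le_sqrt]; omega
  have h3 := (card_le_card h2).trans card_image_le
  rw [Nat.card_Icc] at h3
  exact (Nat.cast_le.2 (h3.trans (by omega))).trans Real.nat_sqrt_le_real_sqrt

lemma log_div_le {X : ℝ} (hX : 1 ≤ X) {n : ℕ} (hn : 1 ≤ n) (hnX : n ≤ ⌊X⌋₊) :
    |Real.log (X / n)| ≤ Real.log X := by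
  have hn0 : (1:ℝ) ≤ n := by exact_mod_cast hn
  have hnX : (n:ℝ) ≤ X := (Nat.le_floor_iff (by linarith)).mp hnX
  rw [abs_of_nonneg]
  · apply Real.log_le_log (by positivity)
    exact div_le_self (by linarith) hn0
  · apply Real.log_nonneg
    rwa [le_div_iff₀ (by linarith), one_mul]

theorem typeI_la (X : ℝ) (hX : 1 ≤ X) (V f : ℕ) (hf : 2 ≤ f)
    (ψ : DirichletCharacter ℂ f) (hψ : ψ ≠ 1) :
    ‖TL X f ψ (fun n => la n - LaII V n)‖ ≤
      (3 * (V:ℝ) ^ 2 * f + V * √X + V) * Real.log X := by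
  have hL : 0 ≤ Real.log X := Real.log_nonneg hX
  have hX0 : 0 ≤ X := by linarith
  set zt : ArithmeticFunction ℝ :=
    ((ArithmeticFunction.zeta : ArithmeticFunction ℕ) : ArithmeticFunction ℝ) with hzt
  have e : TL X f ψ (fun n => la n - LaII V n) =
      TL X f ψ (fun n => la1 V n) + TL X f ψ (fun n => (sqA * mu1 V) n) -
      TL X f ψ (fun n => (zt * (mu1 V * la1 V)) n) := by
    rw [← TL_add, ← TL_sub]
    congr 1
    funext n
    exact vaughanL V n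
  rw [e]
  -- first
  have t1 : ‖TL X f ψ (fun n => la1 V n)‖ ≤ V * Real.log X := by
    unfold TL
    refine (norm_sum_le _ _).trans ?_
    calc ∑ n ∈ Icc 1 ⌊X⌋₊, ‖((la1 V n : ℝ) : ℂ) * ψ (n : ZMod f) *
        ((Real.log (X / n) : ℝ) : ℂ)‖ ≤ ∑ n ∈ Icc 1 ⌊X⌋₊, |la1 V n| * Real.log X := by
          apply sum_le_sum
          intro n hn
          rw [mem_Icc] at hn
          rw [norm_mul, norm_mul, Complex.norm_real, Complex.norm_real, Real.norm_eq_abs,
            Real.norm_eq_abs]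
          have h1 := log_div_le hX hn.1 hn.2
          have h2 := ψ.norm_le_one (n : ZMod f)
          calc |la1 V n| * ‖ψ (n : ZMod f)‖ * |Real.log (X / n)| ≤ |la1 V n| * 1 * Real.log X := by
                gcongr
            _ = _ := by ring
      _ = (∑ n ∈ Icc 1 ⌊X⌋₊, |la1 V n|) * Real.log X := by rw [sum_mul]
      _ ≤ _ := mul_le_mul_of_nonneg_right (sum_la1 V _) hL
  -- second
  have t2 : ‖TL X f ψ (fun n => (sqA * mu1 V) n)‖ ≤ V * (√X * Real.log X) := by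
    have h1 : TL X f ψ (fun n => (sqA * mu1 V) n) =
        ∑ n ∈ Icc 1 ⌊X⌋₊, ∑ i ∈ n.divisorsAntidiagonal,
        ((mu1 V i.2 : ℝ) : ℂ) * ψ (i.2 : ZMod f) * (ψ (i.1 : ZMod f) *
          ((sqA i.1 : ℝ) : ℂ) * ((Real.log (X / ((i.1 * i.2 : ℕ) : ℝ)) : ℝ) : ℂ)) := by
      unfold TL
      apply sum_congr rfl
      intro n _
      beta_reduce
      rw [ArithmeticFunction.mul_apply, Complex.ofReal_sum, sum_mul, sum_mul]
      apply sum_congr rfl
      intro i hi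
      rw [Nat.mem_divisorsAntidiagonal] at hi
      rw [← hi.1]
      push_cast
      rw [map_mul]
      ring
    have e2 : TL X f ψ (fun n => (sqA * mu1 V) n) =
        ∑ c ∈ Icc 1 ⌊X⌋₊, ((mu1 V c : ℝ) : ℂ) * ψ (c : ZMod f) *
          ∑ b ∈ Icc 1 (⌊X⌋₊ / c), ψ (b : ZMod f) * ((sqA b : ℝ) : ℂ) *
            ((Real.log (X / ((b * c : ℕ) : ℝ)) : ℝ) : ℂ) := by
      rw [h1, hyperC ⌊X⌋₊ (fun b c => ((mu1 V c : ℝ) : ℂ) * ψ (c : ZMod f) * (ψ (b : ZMod f) *
            ((sqA b : ℝ) : ℂ) * ((Real.log (X / ((b * c : ℕ) : ℝ)) : ℝ) : ℂ)))]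
      apply sum_congr rfl
      intro c _
      rw [mul_sum]
    rw [e2]
    refine (norm_sum_le _ _).trans ?_
    calc _ ≤ ∑ c ∈ Icc 1 ⌊X⌋₊, |mu1 V c| * (√X * Real.log X) := by
          apply sum_le_sum
          intro c hc
          rw [mem_Icc] at hc
          rw [norm_mul, norm_mul, Complex.norm_real, Real.norm_eq_abs]
          have h2 := ψ.norm_le_one (c : ZMod f)
          have h4 : ‖∑ b ∈ Icc 1 (⌊X⌋₊ / c), ψ (b : ZMod f) * ((sqA b : ℝ) : ℂ) *
              ((Real.log (X / ((b * c : ℕ) : ℝ)) : ℝ) : ℂ)‖ ≤ √X * Real.log X := by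
            refine (norm_sum_le _ _).trans ?_
            calc _ ≤ ∑ b ∈ Icc 1 (⌊X⌋₊ / c), sqA b * Real.log X := by
                  apply sum_le_sum
                  intro b hb
                  rw [mem_Icc] at hb
                  rw [norm_mul, norm_mul, Complex.norm_real, Complex.norm_real, Real.norm_eq_abs,
                    Real.norm_eq_abs, abs_of_nonneg (sqA_nonneg b)]
                  have h5 : b * c ≤ ⌊X⌋₊ := by
                    have := (Nat.le_div_iff_mul_le hc.1).1 hb.2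
                    exact this
                  have h6 := log_div_le hX (Nat.mul_pos hb.1 hc.1) h5
                  have h7 := ψ.norm_le_one (b : ZMod f)
                  have h8 := sqA_nonneg b
                  calc ‖ψ (b : ZMod f)‖ * sqA b * |Real.log (X / ((b * c : ℕ) : ℝ))| ≤
                      1 * sqA b * Real.log X := by gcongr
                    _ = _ := by ring
              _ = (∑ b ∈ Icc 1 (⌊X⌋₊ / c), sqA b) * Real.log X := by rw [sum_mul]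
              _ ≤ √X * Real.log X := by
                  refine mul_le_mul_of_nonneg_right ((sum_sqA _).trans ?_) hL
                  refine Real.sqrt_le_sqrt ?_
                  have h9 : ((⌊X⌋₊ / c : ℕ) : ℝ) ≤ (⌊X⌋₊ : ℝ) := by
                    exact_mod_cast Nat.div_le_self _ _
                  exact h9.trans (Nat.floor_le hX0)
          have h3 := abs_nonneg (mu1 V c)
          calc _ ≤ |mu1 V c| * 1 * (√X * Real.log X) := by gcongr
            _ = _ := by ring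
      _ = (∑ c ∈ Icc 1 ⌊X⌋₊, |mu1 V c|) * (√X * Real.log X) := by rw [sum_mul]
      _ ≤ _ := mul_le_mul_of_nonneg_right (sum_mu1 V _) (by positivity)
  -- third
  have t3 : ‖TL X f ψ (fun n => (zt * (mu1 V * la1 V)) n)‖ ≤
      (V * V) * (3 * f * Real.log X) := by
    have h1 : TL X f ψ (fun n => (zt * (mu1 V * la1 V)) n) =
        ∑ n ∈ Icc 1 ⌊X⌋₊, ∑ i ∈ n.divisorsAntidiagonal,
        (((mu1 V * la1 V) i.2 : ℝ) : ℂ) * ψ (i.2 : ZMod f) * (ψ (i.1 : ZMod f) *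
          ((Real.log (X / ((i.1 * i.2 : ℕ) : ℝ)) : ℝ) : ℂ)) := by
      unfold TL
      apply sum_congr rfl
      intro n _
      beta_reduce
      rw [ArithmeticFunction.mul_apply, Complex.ofReal_sum, sum_mul, sum_mul]
      apply sum_congr rfl
      intro i hi
      rw [Nat.mem_divisorsAntidiagonal] at hi
      have hi1 : i.1 ≠ 0 := by
        rintro h
        rw [h] at hi
        simp at hi
        omega
      have hz : zt i.1 = 1 := by
        rw [hzt, ArithmeticFunction.natCoe_apply, ArithmeticFunction.zeta_apply, if_neg hi1]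
        simp
      rw [hz, ← hi.1]
      push_cast
      rw [map_mul]
      ring
    have e3 : TL X f ψ (fun n => (zt * (mu1 V * la1 V)) n) =
        ∑ c ∈ Icc 1 ⌊X⌋₊, (((mu1 V * la1 V) c : ℝ) : ℂ) * ψ (c : ZMod f) *
          ∑ b ∈ Icc 1 (⌊X⌋₊ / c), ψ (b : ZMod f) *
            ((Real.log (X / ((b * c : ℕ) : ℝ)) : ℝ) : ℂ) := by
      rw [h1, hyperC ⌊X⌋₊ (fun b c => (((mu1 V * la1 V) c : ℝ) : ℂ) * ψ (c : ZMod f) *
        (ψ (b : ZMod f) * ((Real.log (X / ((b * c : ℕ) : ℝ)) : ℝ) : ℂ)))]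
      apply sum_congr rfl
      intro c _
      rw [mul_sum]
    rw [e3]
    refine (norm_sum_le _ _).trans ?_
    calc _ ≤ ∑ c ∈ Icc 1 ⌊X⌋₊, |(mu1 V * la1 V) c| * (3 * f * Real.log X) := by
          apply sum_le_sum
          intro c hc
          rw [mem_Icc] at hc
          have hcX : (c:ℝ) ≤ X := (Nat.le_floor_iff (by linarith)).mp hc.2
          have hMX : ((⌊X⌋₊ / c : ℕ) : ℝ) ≤ X :=
            (Nat.le_floor_iff (by linarith)).mp (Nat.div_le_self _ _)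
          rw [norm_mul, norm_mul, Complex.norm_real, Real.norm_eq_abs]
          have h1 := inner_log hf ψ hψ X hX c (⌊X⌋₊ / c) hc.1 hcX hMX
          have h2 := ψ.norm_le_one (c : ZMod f)
          have h3 := abs_nonneg ((mu1 V * la1 V) c)
          calc _ ≤ |(mu1 V * la1 V) c| * 1 * (3 * f * Real.log X) := by gcongr
            _ = _ := by ring
      _ = (∑ c ∈ Icc 1 ⌊X⌋₊, |(mu1 V * la1 V) c|) * (3 * f * Real.log X) := by rw [sum_mul]
      _ ≤ _ := mul_le_mul_of_nonneg_right (sum_convL V _) (by positivity)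
  refine (norm_sub_le _ _).trans ?_
  have t12 := norm_add_le (TL X f ψ (fun n => la1 V n)) (TL X f ψ (fun n => (sqA * mu1 V) n))
  have e4 : (3 * (V:ℝ) ^ 2 * f + V * √X + V) * Real.log X =
      V * Real.log X + V * (√X * Real.log X) + (V * V) * (3 * f * Real.log X) := by ring
  rw [e4]
  linarith

theorem norm_TL_la_le (X : ℝ) (hX : 1 ≤ X) (V f : ℕ) (hf : 2 ≤ f)
    (ψ : DirichletCharacter ℂ f) (hψ : ψ ≠ 1) :
    ‖TL X f ψ la‖ ≤ (3 * (V:ℝ) ^ 2 * f + V * √X + V) * Real.log X + ‖TL X f ψ (LaII V)‖ := by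
  have h1 := typeI_la X hX V f hf ψ hψ
  have h2 : TL X f ψ la = TL X f ψ (fun n => la n - LaII V n) + TL X f ψ (LaII V) := by
    rw [TL_sub]; ring
  rw [h2]
  exact (norm_add_le _ _).trans (add_le_add h1 le_rfl)

/-! ### type II -/

lemma sum_la2_sq (V Y : ℕ) : ∑ c ∈ Icc 1 Y, la2 V c ^ 2 ≤ Y := by
  calc ∑ c ∈ Icc 1 Y, la2 V c ^ 2 ≤ ∑ c ∈ Icc 1 Y, (1 : ℝ) := by
        refine sum_le_sum fun c _ => ?_
        unfold la2
        split_ifs
        · have := la_abs c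
          rw [sq_le_one_iff_abs_le_one]; exact this
        · norm_num
    _ = Y := by simp

theorem block_pointwiseL (X : ℝ) (hX : 1 ≤ X) (V F0 F1 : ℕ) (hV : 1 ≤ V)
    (h0 : 1 ≤ F0) (h1 : 1 ≤ F1) (t : ℝ) (ht1 : 1 ≤ t) (ht2 : t ≤ X) :
    ∑ f ∈ Icc F0 F1, (1 / (Nat.totient f : ℝ)) * P ⌊t⌋₊ ⌊X / t⌋₊ (betaV V) (la2 V) f ≤
      12 * (1 + Real.log F1) * (Real.sqrt X / F0 + (Real.sqrt (X / V) + Real.sqrt (X / V)) + F1) *
        (Real.sqrt X * (1 + Real.log X) ^ 2) := by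
  have hL : 0 ≤ Real.log X := Real.log_nonneg hX
  have hlogF : 0 ≤ Real.log F1 := Real.log_natCast_nonneg F1
  have ht0 : 0 < t := by linarith
  have hXt : 1 ≤ X / t := by rw [le_div_iff₀ ht0]; linarith
  have hV0 : (0:ℝ) < V := by exact_mod_cast hV
  refine (step45 ⌊t⌋₊ ⌊X / t⌋₊ (betaV V) (la2 V) F0 F1 h0 h1).trans ?_
  have hRHS : 0 ≤ 12 * (1 + Real.log F1) *
      (Real.sqrt X / F0 + (Real.sqrt (X / V) + Real.sqrt (X / V)) + F1) *
        (Real.sqrt X * (1 + Real.log X) ^ 2) := by positivity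
  rcases Nat.lt_or_ge V ⌊t⌋₊ with hVt | hVt
  swap
  · have : ∑ b ∈ Icc 1 ⌊t⌋₊, betaV V b ^ 2 = 0 := by
      apply sum_eq_zero
      intro b hb
      rw [mem_Icc] at hb
      rw [betaV_zero V b (hb.2.trans hVt)]
      simp
    rw [this]
    simpa using hRHS
  rcases Nat.lt_or_ge V ⌊X / t⌋₊ with hUt | hUt
  swap
  · have : ∑ c ∈ Icc 1 ⌊X / t⌋₊, la2 V c ^ 2 = 0 := by
      apply sum_eq_zero
      intro c hc
      rw [mem_Icc] at hc
      have : la2 V c = 0 := by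
        unfold la2
        rw [if_neg (by omega)]
      rw [this]
      simp
    rw [this]
    simpa using hRHS
  have hx1 : (⌊t⌋₊ : ℝ) ≤ t := Nat.floor_le (by linarith)
  have hy1 : (⌊X / t⌋₊ : ℝ) ≤ X / t := Nat.floor_le (by linarith)
  have hVr : (V : ℝ) ≤ ⌊t⌋₊ := by exact_mod_cast hVt.le
  have hUr : (V : ℝ) ≤ ⌊X / t⌋₊ := by exact_mod_cast hUt.le
  have hVt' : (V : ℝ) ≤ t := hVr.trans hx1
  have hUt' : (V : ℝ) ≤ X / t := hUr.trans hy1
  have hy2 : (⌊X / t⌋₊ : ℝ) ≤ X / V := by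
    refine hy1.trans ?_
    exact div_le_div_of_nonneg_left (by linarith) hV0 hVt'
  have hx2 : (⌊t⌋₊ : ℝ) ≤ X / V := by
    refine hx1.trans ?_
    rw [le_div_iff₀ hV0]
    rw [le_div_iff₀ ht0] at hUt'
    linarith
  have hxy : (⌊t⌋₊ : ℝ) * (⌊X / t⌋₊ : ℝ) ≤ X := by
    calc (⌊t⌋₊ : ℝ) * (⌊X / t⌋₊ : ℝ) ≤ t * (X / t) :=
          mul_le_mul hx1 hy1 (by positivity) (by linarith)
      _ = X := by field_simp
  have hx3 : (⌊t⌋₊ : ℝ) ≤ X := hx1.trans ht2
  have s1 : Real.sqrt (∑ b ∈ Icc 1 ⌊t⌋₊, betaV V b ^ 2) ≤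
      Real.sqrt ⌊t⌋₊ * (1 + Real.log X) ^ 2 := by
    rw [Real.sqrt_le_left (by positivity)]
    refine (sum_betaV_sq V ⌊t⌋₊).trans ?_
    rw [mul_pow, Real.sq_sqrt (by positivity)]
    apply mul_le_mul_of_nonneg_left _ (by positivity)
    have h2 := log_natCast_le ⌊t⌋₊ X hX hx3
    have h3 := Real.log_natCast_nonneg ⌊t⌋₊
    calc (1 + Real.log ⌊t⌋₊) ^ 3 ≤ (1 + Real.log X) ^ 3 :=
          pow_le_pow_left₀ (by linarith) (by linarith) 3
      _ ≤ (1 + Real.log X) ^ 4 := pow_le_pow_right₀ (by linarith) (by norm_num)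
      _ = ((1 + Real.log X) ^ 2) ^ 2 := by ring
  have s2 : Real.sqrt (∑ c ∈ Icc 1 ⌊X / t⌋₊, la2 V c ^ 2) ≤ Real.sqrt ⌊X / t⌋₊ :=
    Real.sqrt_le_sqrt (sum_la2_sq V ⌊X / t⌋₊)
  have s3 : Real.sqrt (∑ b ∈ Icc 1 ⌊t⌋₊, betaV V b ^ 2) *
      Real.sqrt (∑ c ∈ Icc 1 ⌊X / t⌋₊, la2 V c ^ 2) ≤ Real.sqrt X * (1 + Real.log X) ^ 2 := by
    refine (mul_le_mul s1 s2 (Real.sqrt_nonneg _) (by positivity)).trans ?_
    calc Real.sqrt ⌊t⌋₊ * (1 + Real.log X) ^ 2 * Real.sqrt ⌊X / t⌋₊ =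
        (Real.sqrt ⌊t⌋₊ * Real.sqrt ⌊X / t⌋₊) * (1 + Real.log X) ^ 2 := by ring
      _ = Real.sqrt ((⌊t⌋₊ : ℝ) * (⌊X / t⌋₊ : ℝ)) * (1 + Real.log X) ^ 2 := by
          rw [Real.sqrt_mul (by positivity)]
      _ ≤ _ := by
          apply mul_le_mul_of_nonneg_right _ (by positivity)
          exact Real.sqrt_le_sqrt hxy
  have s4 : Real.sqrt ((⌊t⌋₊ : ℝ) * (⌊X / t⌋₊ : ℝ)) ≤ Real.sqrt X := Real.sqrt_le_sqrt hxy
  have s5 : Real.sqrt ⌊t⌋₊ ≤ Real.sqrt (X / V) := Real.sqrt_le_sqrt hx2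
  have s6 : Real.sqrt ⌊X / t⌋₊ ≤ Real.sqrt (X / V) := Real.sqrt_le_sqrt hy2
  gcongr

/-- Type II bound over a block of moduli. -/
theorem typeII_blockL (X : ℝ) (hX : 1 ≤ X) (V F0 F1 : ℕ) (hV : 1 ≤ V)
    (h0 : 1 ≤ F0) (h1 : 1 ≤ F1) :
    ∑ f ∈ Icc F0 F1, (1 / (Nat.totient f : ℝ)) * ∑ ψ ∈ Prim f, ‖TL X f ψ (LaII V)‖ ≤
      12 * (1 + Real.log F1) * (Real.sqrt X / F0 + (Real.sqrt (X / V) + Real.sqrt (X / V)) + F1) *
        (Real.sqrt X * (1 + Real.log X) ^ 2) * Real.log X :=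
  sum_TL_le X hX (Icc F0 F1) (fun f => 1 / (Nat.totient f : ℝ)) (fun f => by positivity)
    (betaV V) (la2 V) _ (fun t ht1 ht2 => block_pointwiseL X hX V F0 F1 hV h0 h1 t ht1 ht2)

/-- large conductors -/
theorem largeL (X : ℝ) (hX : 1 ≤ X) (W G F : ℕ) (hW : 1 ≤ W) (hG : 2 ≤ G) (hF : 1 ≤ F) :
    ∑ f ∈ Icc G F, (1 / (Nat.totient f : ℝ)) * ∑ ψ ∈ Prim f, ‖TL X f ψ la‖ ≤
      F * ((3 * (W:ℝ) ^ 2 * F + 2 * (W * √X)) * Real.log X) +
      12 * (1 + Real.log F) * (Real.sqrt X / (G : ℝ) +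
        (Real.sqrt (X / W) + Real.sqrt (X / W)) + F) * (Real.sqrt X * (1 + Real.log X) ^ 2) *
          Real.log X := by
  have hII := typeII_blockL X hX W G F hW (by omega) hF
  have hL : 0 ≤ Real.log X := Real.log_nonneg hX
  have hsX : 1 ≤ √X := Real.one_le_sqrt.mpr hX
  have hWr : (0:ℝ) ≤ W := Nat.cast_nonneg _
  set C : ℝ := (3 * (W:ℝ) ^ 2 * F + 2 * (W * √X)) * Real.log X with hC
  have hC0 : 0 ≤ C := by positivity
  have h1 : ∑ f ∈ Icc G F, (1 / (Nat.totient f : ℝ)) * ∑ ψ ∈ Prim f, ‖TL X f ψ la‖ ≤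
      ∑ f ∈ Icc G F, C +
      ∑ f ∈ Icc G F, (1 / (Nat.totient f : ℝ)) * ∑ ψ ∈ Prim f, ‖TL X f ψ (LaII W)‖ := by
    rw [← sum_add_distrib]
    apply sum_le_sum
    intro f hf
    rw [mem_Icc] at hf
    have hφ : (0:ℝ) < Nat.totient f := by exact_mod_cast Nat.totient_pos.mpr (by omega)
    have hc := card_prim_le (f := f) (by omega)
    have hfF : (f:ℝ) ≤ F := by exact_mod_cast hf.2
    have hCf : (3 * (W:ℝ) ^ 2 * f + W * √X + W) * Real.log X ≤ C := by
      rw [hC]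
      apply mul_le_mul_of_nonneg_right _ hL
      have h2 : 3 * (W:ℝ) ^ 2 * f ≤ 3 * (W:ℝ) ^ 2 * F := by gcongr
      nlinarith
    calc (1 / (Nat.totient f : ℝ)) * ∑ ψ ∈ Prim f, ‖TL X f ψ la‖
        ≤ (1 / (Nat.totient f : ℝ)) * ∑ ψ ∈ Prim f, (C + ‖TL X f ψ (LaII W)‖) := by
          apply mul_le_mul_of_nonneg_left _ (by positivity)
          apply sum_le_sum
          intro ψ hψ
          exact (norm_TL_la_le X hX W f (by omega) ψ (prim_ne_one (by omega) hψ)).trans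
            (add_le_add hCf le_rfl)
      _ = ((Prim f).card : ℝ) / (Nat.totient f : ℝ) * C +
          (1 / (Nat.totient f : ℝ)) * ∑ ψ ∈ Prim f, ‖TL X f ψ (LaII W)‖ := by
          rw [sum_add_distrib, sum_const, nsmul_eq_mul]; ring
      _ ≤ C + (1 / (Nat.totient f : ℝ)) * ∑ ψ ∈ Prim f, ‖TL X f ψ (LaII W)‖ := by
          apply add_le_add_left
          calc ((Prim f).card : ℝ) / (Nat.totient f : ℝ) * C ≤ 1 * C := by
                apply mul_le_mul_of_nonneg_right _ hC0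
                rw [div_le_one hφ]; exact hc
            _ = C := one_mul C
  refine h1.trans (add_le_add ?_ hII)
  rw [sum_const, nsmul_eq_mul, Nat.card_Icc]
  have h2 : ((F + 1 - G : ℕ) : ℝ) ≤ F := by exact_mod_cast (by omega : F + 1 - G ≤ F)
  exact mul_le_mul_of_nonneg_right h2 hC0

end

end Pool.Agent.N403.QG
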