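import Pool.Agent.N403.QG.LamBV

/-!
# QG/BVL, part 4: Bombieri-Vinogradov for the Liouville function and primitive characters, final form
-/

set_option autoImplicit false

namespace Pool.Agent.N403.QG

open Finset Pool.Agent.Helper112 Pool.Agent.Helper112.BLB Pool.Agent.Helper112.TI
open Pool.Agent.Helper112.TII Pool.Agent.H398R2.BV

noncomputable section

lemma TL_small (Z : ℝ) (hZ : Z < 1) (f : ℕ) (ψ : DirichletCharacter ℂ f) : TL Z f ψ la = 0 := by
  unfold TL
  rw [Nat.floor_eq_zero.2 hZ]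
  simp

/-- sum over small conductors -/
theorem smallL (Z D : ℝ) (G : ℕ) (hD : 0 ≤ D)
    (hSW : ∀ f : ℕ, 1 ≤ f → f ≤ G → ∀ ψ : DirichletCharacter ℂ f, ‖TL Z f ψ la‖ ≤ D) :
    ∑ f ∈ Icc 1 G, (1 / (Nat.totient f : ℝ)) * ∑ ψ ∈ Prim f, ‖TL Z f ψ la‖ ≤ G * D := by
  calc ∑ f ∈ Icc 1 G, (1 / (Nat.totient f : ℝ)) * ∑ ψ ∈ Prim f, ‖TL Z f ψ la‖
      ≤ ∑ f ∈ Icc 1 G, D := by
        apply sum_le_sum
        intro f hf
        rw [mem_Icc] at hf
        have hφ : (0:ℝ) < Nat.totient f := by exact_mod_cast Nat.totient_pos.mpr (by omega)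
        have h1 := card_prim_le (f := f) (by omega)
        calc (1 / (Nat.totient f : ℝ)) * ∑ ψ ∈ Prim f, ‖TL Z f ψ la‖
            ≤ (1 / (Nat.totient f : ℝ)) * ∑ ψ ∈ Prim f, D := by
              apply mul_le_mul_of_nonneg_left _ (by positivity)
              exact sum_le_sum fun ψ hψ => hSW f hf.1 hf.2 ψ
          _ = ((Prim f).card : ℝ) / (Nat.totient f : ℝ) * D := by
              rw [sum_const, nsmul_eq_mul]; ring
          _ ≤ 1 * D := by
              apply mul_le_mul_of_nonneg_right _ hD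
              rw [div_le_one hφ]
              exact h1
          _ = D := one_mul D
    _ = ((Icc 1 G).card : ℝ) * D := by rw [sum_const, nsmul_eq_mul]
    _ = G * D := by rw [Nat.card_Icc]; simp

theorem bvL (U : ℕ) : ∃ B N0 : ℕ, ∀ N : ℕ, N0 ≤ N → ∀ F : ℕ,
    (F : ℝ) ≤ √(N : ℝ) / Real.log N ^ B → ∀ Z : ℝ, 0 ≤ Z → Z ≤ N →
    ∑ f ∈ Icc 1 F, (1 / (Nat.totient f : ℝ)) * ∑ ψ ∈ Prim f, ‖TL Z f ψ la‖ ≤
      N / Real.log N ^ U := by
  set V := U + 6 with hV
  set B := 4 * V + U + 4 with hB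
  obtain ⟨N1, hN1⟩ := sw_TL (U + V + 2) V
  obtain ⟨N2, hN2⟩ := ev_lg 10000
  refine ⟨B, max N1 (max N2 4), fun N hN F hF Z hZ0 hZN => ?_⟩
  have g1 := hN1 N ((le_max_left _ _).trans hN)
  have hL1' : 10000 ≤ Real.log N := hN2 N (le_trans (le_max_left _ _) ((le_max_right _ _).trans hN))
  have hN4 : 4 ≤ N := le_trans (le_max_right _ _) ((le_max_right _ _).trans hN)
  have hNr : (4:ℝ) ≤ N := by exact_mod_cast hN4
  have hN0 : (0:ℝ) < N := by linarith
  set L := Real.log N with hL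
  have hL0 : 0 < L := by linarith
  have hL1 : 1 ≤ L := by linarith
  set s := √(N : ℝ) with hs
  have hs0 : 0 < s := Real.sqrt_pos.mpr hN0
  have hss : s * s = N := Real.mul_self_sqrt hN0.le
  have hs1 : 1 ≤ s := Real.one_le_sqrt.mpr (by linarith)
  have hNU : 0 < (N : ℝ) / L ^ U := by positivity
  rcases lt_or_ge Z 1 with hZ1 | hZ1
  · have : ∑ f ∈ Icc 1 F, (1 / (Nat.totient f : ℝ)) * ∑ ψ ∈ Prim f, ‖TL Z f ψ la‖ = 0 := by
      refine sum_eq_zero fun f _ => ?_
      rw [sum_eq_zero fun ψ _ => by rw [TL_small Z hZ1, norm_zero], mul_zero]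
    rw [this]; exact hNU.le
  rcases Nat.eq_zero_or_pos F with hF0 | hF0
  · subst hF0
    rw [Icc_eq_empty (by norm_num), sum_empty]
    exact hNU.le
  have hF0r : (1:ℝ) ≤ F := by exact_mod_cast hF0
  have hlZ0 : 0 ≤ Real.log Z := Real.log_nonneg hZ1
  have hlZ : Real.log Z ≤ L := Real.log_le_log (by linarith) hZN
  have hsZ : √Z ≤ s := Real.sqrt_le_sqrt hZN
  have hsZ0 : 0 ≤ √Z := Real.sqrt_nonneg _
  set G := ⌊L ^ V⌋₊ with hG
  have hGle : (G : ℝ) ≤ L ^ V := Nat.floor_le (by positivity)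
  have hsmall : ∑ f ∈ Icc 1 G, (1 / (Nat.totient f : ℝ)) * ∑ ψ ∈ Prim f, ‖TL Z f ψ la‖ ≤
      (1 / 2) * (N / L ^ U) := by
    refine (smallL Z (N / L ^ (U + V + 2)) G (by positivity) ?_).trans ?_
    · intro f hf1 hfG ψ
      refine g1 f hf1 ?_ ψ Z hZ0 hZN
      calc (f:ℝ) ≤ G := by exact_mod_cast hfG
        _ ≤ L ^ V := hGle
    · calc (G:ℝ) * (N / L ^ (U + V + 2)) ≤ L ^ V * (N / L ^ (U + V + 2)) := by gcongr
        _ = (1 / (L * L)) * (N / L ^ U) := by
            have : L ^ (U + V + 2) = L ^ U * L ^ V * (L * L) := by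
              rw [pow_add, pow_add, pow_two]
            rw [this]
            have hLV0 : L ^ V ≠ 0 := by positivity
            generalize L ^ V = P at *
            field_simp
        _ ≤ (1 / 2) * (N / L ^ U) := by
            apply mul_le_mul_of_nonneg_right _ hNU.le
            apply one_div_le_one_div_of_le (by norm_num)
            nlinarith
  -- large part
  set W := ⌈L ^ (2 * V)⌉₊ with hW
  have hLV : 1 ≤ L ^ (2 * V) := one_le_pow₀ hL1
  have hW1 : L ^ (2 * V) ≤ W := Nat.le_ceil _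
  have hW2 : (W : ℝ) ≤ 2 * L ^ (2 * V) := by
    have := Nat.ceil_lt_add_one (show 0 ≤ L ^ (2 * V) by positivity)
    linarith
  have hW3 : 1 ≤ W := by
    have : (1:ℝ) ≤ W := hLV.trans hW1
    exact_mod_cast this
  have hG1 : 1 ≤ G := by
    rw [hG, Nat.one_le_floor_iff]
    exact one_le_pow₀ hL1
  have hlarge := largeL Z hZ1 W (G + 1) F hW3 (by omega) hF0
  have hlarge2 : F * ((3 * (W:ℝ) ^ 2 * F + 2 * (W * √Z)) * Real.log Z) +
    12 * (1 + Real.log F) * (√Z / ((G + 1 : ℕ) : ℝ) +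
      (√(Z / W) + √(Z / W)) + F) * (√Z * (1 + Real.log Z) ^ 2) * Real.log Z ≤
      (1 / 2) * (N / L ^ U) := by
    have hI : F * ((3 * (W:ℝ) ^ 2 * F + 2 * (W * √Z)) * Real.log Z) ≤ (1 / 4) * (N / L ^ U) := by
      have hI1 : F * ((3 * (W:ℝ) ^ 2 * F + 2 * (W * √Z)) * Real.log Z) ≤
          (s / L ^ B) * ((3 * (2 * L ^ (2 * V)) ^ 2 * (s / L ^ B) + 2 * ((2 * L ^ (2 * V)) * s)) * L) := by
        gcongr
      have hI2 : (s / L ^ B) * ((3 * (2 * L ^ (2 * V)) ^ 2 * (s / L ^ B) +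
          2 * ((2 * L ^ (2 * V)) * s)) * L) =
          (s * s) * (12 * (L ^ (4 * V + 1) / L ^ (2 * B)) + 4 * (L ^ (2 * V + 1) / L ^ B)) := by
        have e1 : L ^ (4 * V + 1) = (L ^ (2 * V)) ^ 2 * L := by rw [← pow_mul]; ring_nf
        have e2 : L ^ (2 * B) = L ^ B * L ^ B := by rw [two_mul, pow_add]
        have e3 : L ^ (2 * V + 1) = L ^ (2 * V) * L := by rw [pow_succ]
        rw [e1, e2, e3]
        field_simp
        ring
      have hI3 : L ^ (4 * V + 1) / L ^ (2 * B) ≤ 1 / (L ^ U * L) := by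
        rw [div_le_div_iff₀ (by positivity) (by positivity), one_mul, ← pow_succ, ← pow_add]
        exact pow_le_pow_right₀ hL1 (by omega)
      have hI4 : L ^ (2 * V + 1) / L ^ B ≤ 1 / (L ^ U * L) := by
        rw [div_le_div_iff₀ (by positivity) (by positivity), one_mul, ← pow_succ, ← pow_add]
        exact pow_le_pow_right₀ hL1 (by omega)
      rw [hI2, hss] at hI1
      refine hI1.trans ?_
      calc (N : ℝ) * (12 * (L ^ (4 * V + 1) / L ^ (2 * B)) + 4 * (L ^ (2 * V + 1) / L ^ B)) ≤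
          N * (12 * (1 / (L ^ U * L)) + 4 * (1 / (L ^ U * L))) := by gcongr
        _ = (16 / L) * (N / L ^ U) := by field_simp; ring
        _ ≤ (1 / 4) * (N / L ^ U) := by
            apply mul_le_mul_of_nonneg_right _ hNU.le
            rw [div_le_div_iff₀ hL0 (by norm_num)]
            linarith
    have hFs : (F : ℝ) ≤ s := by
      refine hF.trans (div_le_self hs0.le (one_le_pow₀ hL1))
    have hlogF : Real.log F ≤ L := by
      refine Real.log_le_log (by linarith) (hFs.trans ?_)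
      nlinarith
    have hG2 : √Z / ((G + 1 : ℕ) : ℝ) ≤ s / L ^ V := by
      refine div_le_div₀ hs0.le hsZ (by positivity) ?_
      have := Nat.lt_floor_add_one (L ^ V)
      rw [← hG] at this
      push_cast
      linarith
    have hW4 : √(Z / W) ≤ s / L ^ V := by
      rw [Real.sqrt_div (by linarith)]
      refine div_le_div₀ hs0.le hsZ (by positivity) ?_
      apply Real.le_sqrt_of_sq_le
      rw [← pow_mul, mul_comm V 2]
      exact hW1
    have hF4 : (F : ℝ) ≤ s / L ^ V := by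
      refine hF.trans ?_
      apply div_le_div_of_nonneg_left hs0.le (by positivity)
      apply pow_le_pow_right₀ hL1
      omega
    have hII : 12 * (1 + Real.log F) * (√Z / ((G + 1 : ℕ) : ℝ) +
      (√(Z / W) + √(Z / W)) + F) * (√Z * (1 + Real.log Z) ^ 2) * Real.log Z ≤
      (1 / 4) * (N / L ^ U) := by
      have hF0' : (0:ℝ) ≤ Real.log F := Real.log_natCast_nonneg F
      have hq1 : 12 * (1 + Real.log F) ≤ 12 * (2 * L) := by linarith
      have hq2 : √Z / ((G + 1 : ℕ) : ℝ) + (√(Z / W) + √(Z / W)) + F ≤ 4 * (s / L ^ V) := by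
        linarith
      have hq3 : √Z * (1 + Real.log Z) ^ 2 ≤ s * (2 * L) ^ 2 := by
        refine mul_le_mul hsZ ?_ (by positivity) hs0.le
        exact pow_le_pow_left₀ (by linarith) (by linarith) 2
      have hq4 : 0 ≤ √Z / ((G + 1 : ℕ) : ℝ) + (√(Z / W) + √(Z / W)) + F := by positivity
      calc 12 * (1 + Real.log F) * (√Z / ((G + 1 : ℕ) : ℝ) +
          (√(Z / W) + √(Z / W)) + F) * (√Z * (1 + Real.log Z) ^ 2) * Real.log Z ≤
          12 * (2 * L) * (4 * (s / L ^ V)) * (s * (2 * L) ^ 2) * L := by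
            refine mul_le_mul (mul_le_mul (mul_le_mul hq1 hq2 hq4 (by positivity)) hq3
              (by positivity) (by positivity)) hlZ hlZ0 (by positivity)
        _ = 384 * (s * s) * (L ^ 4 / L ^ V) := by
            field_simp
            ring
        _ = 384 * (N / L ^ U) * (L ^ (4 + U) / L ^ V) := by
            rw [hss]
            have hLV0 : L ^ V ≠ 0 := by positivity
            generalize L ^ V = P at *
            rw [pow_add L 4 U]
            field_simp
        _ ≤ 384 * (N / L ^ U) * (1 / L) := by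
            apply mul_le_mul_of_nonneg_left _ (by positivity)
            rw [div_le_div_iff₀ (by positivity) hL0, one_mul, ← pow_succ]
            apply pow_le_pow_right₀ hL1
            omega
        _ ≤ 384 * (N / L ^ U) * (1 / 10000) := by gcongr
        _ ≤ _ := by linarith
    linarith
  have hnn : ∀ f : ℕ, 0 ≤ (1 / (Nat.totient f : ℝ)) * ∑ ψ ∈ Prim f, ‖TL Z f ψ la‖ := fun f =>
    mul_nonneg (by positivity) (sum_nonneg fun _ _ => norm_nonneg _)
  have hsplit : ∑ f ∈ Icc 1 F, (1 / (Nat.totient f : ℝ)) * ∑ ψ ∈ Prim f, ‖TL Z f ψ la‖ ≤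
      ∑ f ∈ Icc 1 G, (1 / (Nat.totient f : ℝ)) * ∑ ψ ∈ Prim f, ‖TL Z f ψ la‖ +
      ∑ f ∈ Icc (G + 1) F, (1 / (Nat.totient f : ℝ)) * ∑ ψ ∈ Prim f, ‖TL Z f ψ la‖ := by
    rw [← sum_filter_add_sum_filter_not (Icc 1 F) (fun f => f ≤ G)]
    apply add_le_add
    · apply sum_le_sum_of_subset_of_nonneg
      · intro f hf
        rw [mem_filter, mem_Icc] at hf
        rw [mem_Icc]
        exact ⟨hf.1.1, hf.2⟩
      · intro f _ _
        exact hnn f
    · apply sum_le_sum_of_subset_of_nonneg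
      · intro f hf
        rw [mem_filter, mem_Icc] at hf
        rw [mem_Icc]
        omega
      · intro f _ _
        exact hnn f
  linarith

end

end Pool.Agent.N403.QG
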