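import Pool.Agent.N403.QG.LamSW

/-!
# QG/BVL, part 2: the large sieve for the Liouville function, logarithmic weights
-/

set_option autoImplicit false

namespace Pool.Agent.N403.QG

open Finset Pool.Agent.Helper112 Pool.Agent.Helper112.BLB Pool.Agent.Helper112.TI
open Pool.Agent.Helper112.TII Pool.Agent.H398R2.BV

noncomputable section

/-! ### Siegel-Walfisz with the logarithmic weight -/

lemma abel_log (a : ℕ → ℂ) (Z : ℝ) (hZ : 0 < Z) (K : ℕ) (hK : 1 ≤ K) :
    ∑ n ∈ Icc 1 K, a n * ((Real.log (Z / n) : ℝ) : ℂ) =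
      (∑ n ∈ Icc 1 K, a n) * ((Real.log (Z / K) : ℝ) : ℂ) +
      ∑ k ∈ Ico 1 K, (∑ n ∈ Icc 1 k, a n) * ((Real.log (((k : ℝ) + 1) / k) : ℝ) : ℂ) := by
  induction K, hK using Nat.le_induction with
  | base => simp
  | succ K hK ih =>
    have hK0 : (0:ℝ) < K := by exact_mod_cast hK
    rw [sum_Icc_succ_top (by omega), sum_Icc_succ_top (by omega), sum_Ico_succ_top hK, ih]
    have e1 : Real.log (Z / K) = Real.log (Z / ((K + 1 : ℕ) : ℝ)) +
        Real.log (((K : ℝ) + 1) / K) := by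
      rw [← Real.log_mul (by positivity) (by positivity)]
      congr 1
      push_cast
      field_simp
    rw [e1]
    push_cast
    ring

/-- Siegel-Walfisz for the Liouville function with the logarithmic weight -/
theorem sw_TL (U B : ℕ) : ∃ N₀ : ℕ, ∀ N : ℕ, N₀ ≤ N → ∀ q : ℕ, 1 ≤ q → (q : ℝ) ≤ Real.log N ^ B →
    ∀ χ : DirichletCharacter ℂ q, ∀ Z : ℝ, 0 ≤ Z → Z ≤ N →
      ‖TL Z q χ la‖ ≤ N / Real.log N ^ U := by
  obtain ⟨N1, h1⟩ := sw_la (U + 2) B
  obtain ⟨N2, h2⟩ := ev_lg 4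
  refine ⟨max N1 (max N2 3), fun N hN q hq hqB χ Z hZ0 hZN => ?_⟩
  have g1 := h1 N ((le_max_left _ _).trans hN) q hq hqB χ
  have g2 := h2 N (le_trans (le_max_left _ _) ((le_max_right _ _).trans hN))
  have hN3 : 3 ≤ N := le_trans (le_max_right _ _) ((le_max_right _ _).trans hN)
  have hNr : (3:ℝ) ≤ N := by exact_mod_cast hN3
  set L := Real.log N with hL
  have hL0 : 0 < L := by linarith
  set E := (N : ℝ) / L ^ (U + 2) with hE
  have hE0 : 0 < E := by positivity
  have hgoal : 3 * L * E ≤ N / L ^ U := by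
    have e1 : 3 * L * E = (N / L ^ U) * (3 / L) := by
      rw [hE, pow_add]; field_simp
    rw [e1]
    refine mul_le_of_le_one_right (by positivity) ?_
    rw [div_le_one hL0]; linarith
  have hTL : TL Z q χ la = ∑ n ∈ Icc 1 ⌊Z⌋₊, ((la n : ℂ) * χ (n : ZMod q)) *
      ((Real.log (Z / n) : ℝ) : ℂ) := rfl
  set K := ⌊Z⌋₊ with hK
  rcases Nat.eq_zero_or_pos K with h0 | h0
  · rw [hTL, h0]
    simp only [Finset.Icc_eq_empty (by norm_num : ¬ 1 ≤ 0), sum_empty, norm_zero]
    positivity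
  have hKZ : (K : ℝ) ≤ Z := Nat.floor_le hZ0
  have hZK : Z < K + 1 := Nat.lt_floor_add_one Z
  have hK1 : (1:ℝ) ≤ K := by exact_mod_cast h0
  have hKN : K ≤ N := by
    have : (K : ℝ) ≤ N := hKZ.trans hZN
    exact_mod_cast this
  have hKNr : (K : ℝ) ≤ N := by exact_mod_cast hKN
  rw [hTL, abel_log _ Z (by linarith) K h0]
  have hS : ∀ k : ℕ, k ≤ N → ‖∑ n ∈ Icc 1 k, (la n : ℂ) * χ (n : ZMod q)‖ ≤ E := fun k hk => g1 k hk
  have f1 : ‖(∑ n ∈ Icc 1 K, (la n : ℂ) * χ (n : ZMod q)) * ((Real.log (Z / K) : ℝ) : ℂ)‖ ≤ E * 1 := by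
    rw [norm_mul, Complex.norm_real, Real.norm_eq_abs]
    refine mul_le_mul (hS K hKN) ?_ (abs_nonneg _) hE0.le
    have h3 : 1 ≤ Z / K := by rw [le_div_iff₀ (by linarith)]; linarith
    rw [abs_of_nonneg (Real.log_nonneg h3)]
    have h4 : Z / K ≤ 2 := by rw [div_le_iff₀ (by linarith)]; linarith
    refine (Real.log_le_log (by linarith) h4).trans ?_
    have := Real.log_two_lt_d9
    linarith
  have f2 : ‖∑ k ∈ Ico 1 K, (∑ n ∈ Icc 1 k, (la n : ℂ) * χ (n : ZMod q)) *
      ((Real.log (((k : ℝ) + 1) / k) : ℝ) : ℂ)‖ ≤ E * (1 + L) := by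
    refine (norm_sum_le _ _).trans ?_
    calc _ ≤ ∑ k ∈ Ico 1 K, E * (1 / (k : ℝ)) := by
          refine sum_le_sum fun k hk => ?_
          rw [mem_Ico] at hk
          have hk0 : (0:ℝ) < k := by exact_mod_cast hk.1
          rw [norm_mul, Complex.norm_real, Real.norm_eq_abs]
          refine mul_le_mul (hS k (by omega)) ?_ (abs_nonneg _) hE0.le
          have h3 : 1 ≤ ((k : ℝ) + 1) / k := by rw [le_div_iff₀ hk0]; linarith
          rw [abs_of_nonneg (Real.log_nonneg h3)]
          refine (Real.log_le_sub_one_of_pos (by linarith)).trans (le_of_eq ?_)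
          field_simp
          ring
      _ = E * ∑ k ∈ Ico 1 K, (1 / (k : ℝ)) := by rw [mul_sum]
      _ ≤ E * (1 + L) := by
          refine mul_le_mul_of_nonneg_left ?_ hE0.le
          calc ∑ k ∈ Ico 1 K, (1 / (k : ℝ)) ≤ ∑ k ∈ Icc 1 K, (1 / (k : ℝ)) :=
                sum_le_sum_of_subset_of_nonneg (fun k hk => by
                  rw [mem_Ico] at hk; rw [mem_Icc]; omega) fun _ _ _ => by positivity
            _ ≤ 1 + Real.log K := harm_le' K
            _ ≤ 1 + L := by
                have := Real.log_le_log (by linarith) hKNr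
                linarith
  refine (norm_add_le _ _).trans ((add_le_add f1 f2).trans (le_trans ?_ hgoal))
  nlinarith

/-! ### the decomposition -/

/-- truncated Liouville function -/
def la1 (V : ℕ) : ArithmeticFunction ℝ :=
  ⟨fun n => if n ≤ V then la n else 0, by simp [la_zero]⟩

lemma la1_apply (V n : ℕ) : la1 V n = if n ≤ V then la n else 0 := rfl

/-- truncated Liouville function -/
def la2 (V n : ℕ) : ℝ := if V < n then la n else 0

/-- the type II part -/
def LaII (V n : ℕ) : ℝ := ∑ i ∈ n.divisorsAntidiagonal, betaV V i.1 * la2 V i.2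

/-- the Liouville function as an arithmetic function -/
def laA : ArithmeticFunction ℝ := ((ArithmeticFunction.liouville : ArithmeticFunction ℤ) : ArithmeticFunction ℝ)

lemma laA_apply (n : ℕ) : laA n = la n := rfl

open Classical in
/-- the squares -/
def sqA : ArithmeticFunction ℝ := ⟨fun n => if n ≠ 0 ∧ IsSquare n then 1 else 0, by simp⟩

open Classical in
lemma sqA_apply (n : ℕ) : sqA n = if n ≠ 0 ∧ IsSquare n then 1 else 0 := rfl

lemma sqA_nonneg (n : ℕ) : 0 ≤ sqA n := by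
  rw [sqA_apply]; split_ifs <;> norm_num

open ArithmeticFunction in
lemma laA_eq : laA = ((moebius : ArithmeticFunction ℤ) : ArithmeticFunction ℝ) * sqA := by
  classical
  ext n
  rcases eq_or_ne n 0 with rfl | hn
  · simp
  rw [laA_apply, mul_apply]
  have h1 : (la n : ℂ) = ∑ m ∈ Icc 1 n, if m ^ 2 ∣ n then
      ((ArithmeticFunction.moebius (n / m ^ 2) : ℤ) : ℂ) else 0 := by
    rw [← Pool.Agent.H534R2.BH.lam_eq n n (mem_Icc.2 ⟨Nat.one_le_iff_ne_zero.2 hn, le_rfl⟩), la_eq hn]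
    push_cast
    rfl
  have h2 : la n = ∑ m ∈ Icc 1 n, if m ^ 2 ∣ n then
      ((ArithmeticFunction.moebius (n / m ^ 2) : ℤ) : ℝ) else 0 := by
    have : ((la n : ℝ) : ℂ) = ((∑ m ∈ Icc 1 n, if m ^ 2 ∣ n then
      ((ArithmeticFunction.moebius (n / m ^ 2) : ℤ) : ℝ) else 0 : ℝ) : ℂ) := by
      rw [h1]
      push_cast
      refine sum_congr rfl fun m _ => ?_
      split_ifs <;> push_cast <;> rfl
    exact_mod_cast this
  rw [h2, Nat.sum_divisorsAntidiagonal' (f := fun a b =>
    ((moebius : ArithmeticFunction ℤ) : ArithmeticFunction ℝ) a * sqA b), ← sum_filter]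
  have h3 : ∑ i ∈ n.divisors, ((moebius : ArithmeticFunction ℤ) : ArithmeticFunction ℝ) (n / i) * sqA i =
      ∑ i ∈ n.divisors.filter (fun i => IsSquare i), ((ArithmeticFunction.moebius (n / i) : ℤ) : ℝ) := by
    rw [sum_filter]
    refine sum_congr rfl fun i hi => ?_
    have hi0 : i ≠ 0 := (Nat.pos_of_mem_divisors hi).ne'
    rw [sqA_apply, intCoe_apply]
    by_cases h : IsSquare i
    · rw [if_pos ⟨hi0, h⟩, if_pos h, mul_one]
    · rw [if_neg (fun h' => h h'.2), if_neg h, mul_zero]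
  rw [h3]
  refine sum_bij (fun m _ => m ^ 2) ?_ ?_ ?_ ?_
  · intro m hm
    rw [mem_filter, mem_Icc] at hm
    rw [mem_filter, Nat.mem_divisors]
    exact ⟨⟨hm.2, hn⟩, ⟨m, by ring⟩⟩
  · intro a _ b _ h
    exact Nat.pow_left_injective (n := 2) (by norm_num) h
  · intro i hi
    rw [mem_filter, Nat.mem_divisors] at hi
    obtain ⟨⟨hd, _⟩, m, hm⟩ := hi
    have hi0 : i ≠ 0 := fun h => by rw [h] at hd; exact hn (Nat.eq_zero_of_zero_dvd hd)
    have hm0 : m ≠ 0 := fun h => by rw [h] at hm; exact hi0 (by simpa using hm)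
    refine ⟨m, ?_, by rw [hm]; ring⟩
    rw [mem_filter, mem_Icc]
    refine ⟨⟨Nat.pos_of_ne_zero hm0, ?_⟩, ?_⟩
    · have h4 := Nat.le_of_dvd (Nat.pos_of_ne_zero hn) hd
      have h5 : m ≤ m * m := Nat.le_mul_self m
      omega
    · rw [pow_two, ← hm]; exact hd
  · intro m _
    rfl

open ArithmeticFunction in
theorem LaII_eq (V n : ℕ) : LaII V n =
    ((((moebius : ArithmeticFunction ℤ) : ArithmeticFunction ℝ) - mu1 V) *
      ((ArithmeticFunction.zeta : ArithmeticFunction ℕ) : ArithmeticFunction ℝ) *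
      (laA - la1 V)) n := by
  rw [mul_apply]
  unfold LaII
  apply sum_congr rfl
  rintro ⟨b, c⟩ _
  rw [mul_comm (_ - mu1 V), coe_zeta_mul_apply]
  congr 1
  · unfold betaV
    rw [sum_filter]
    apply sum_congr rfl
    intro e _
    rw [af_sub, mu1_apply, intCoe_apply]
    by_cases h : V < e
    · rw [if_pos h, if_neg (by omega)]; ring
    · rw [if_neg h, if_pos (by omega)]; ring
  · simp only
    rw [af_sub, la1_apply, laA_apply, la2]
    by_cases h : V < c
    · rw [if_pos h, if_neg (by omega)]; ring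
    · rw [if_neg h, if_pos (by omega)]; ring

open ArithmeticFunction in
theorem vaughanL (V n : ℕ) : la n - LaII V n =
    la1 V n + (sqA * mu1 V) n -
      (((ArithmeticFunction.zeta : ArithmeticFunction ℕ) : ArithmeticFunction ℝ) *
        (mu1 V * la1 V)) n := by
  have h1 : ((moebius : ArithmeticFunction ℤ) : ArithmeticFunction ℝ) *
      ((ArithmeticFunction.zeta : ArithmeticFunction ℕ) : ArithmeticFunction ℝ) = 1 :=
    coe_moebius_mul_coe_zeta
  have h2 : laA * ((ArithmeticFunction.zeta : ArithmeticFunction ℕ) :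
      ArithmeticFunction ℝ) = sqA := by
    rw [laA_eq]
    linear_combination sqA * h1
  have h3 : laA - ((((moebius : ArithmeticFunction ℤ) : ArithmeticFunction ℝ) - mu1 V) *
      ((ArithmeticFunction.zeta : ArithmeticFunction ℕ) : ArithmeticFunction ℝ) *
      (laA - la1 V)) = la1 V + sqA * mu1 V -
      ((ArithmeticFunction.zeta : ArithmeticFunction ℕ) : ArithmeticFunction ℝ) *
        (mu1 V * la1 V) := by
    rw [← h2]
    linear_combination (-(laA : ArithmeticFunction ℝ) + la1 V) * h1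
  rw [LaII_eq, ← laA_apply, ← af_sub, h3, af_sub, ArithmeticFunction.add_apply]

end

end Pool.Agent.N403.QG
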