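import Pool.Agent.H398R2.BV5
import Pool.Agent.H705R2.MLogF
import Pool.Agent.H534R2.BH_Lam

/-!
# QG/BVL, part 1: the theorem of Siegel and Walfisz for the Liouville function
-/

set_option autoImplicit false

namespace Pool.Agent.N403.QG

open Finset Pool.Agent.Helper112 Pool.Agent.Helper112.BLB Pool.Agent.Helper112.TII Pool.Agent.H398R2.BV

noncomputable section

/-! ### growth -/

theorem ev_log (k : ℕ) (c : ℝ) : ∃ X0 : ℕ, ∀ x : ℕ, X0 ≤ x → c * Real.log x ^ k ≤ √(x : ℝ) := by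
  have h1 : ∀ᶠ y : ℝ in Filter.atTop, |c| * 2 ^ k * Real.log y ^ k ≤ y := by
    have h := (Real.isLittleO_pow_log_id_atTop (n := k)).bound
      (show (0:ℝ) < 1 / (|c| * 2 ^ k + 1) by positivity)
    filter_upwards [h, Filter.eventually_ge_atTop (1:ℝ)] with y hy hy1
    rw [Real.norm_of_nonneg (pow_nonneg (Real.log_nonneg hy1) _), id, Real.norm_of_nonneg (by linarith)] at hy
    have h2 : 0 ≤ Real.log y ^ k := pow_nonneg (Real.log_nonneg hy1) _
    rw [one_div, ← div_eq_inv_mul, le_div_iff₀ (by positivity)] at hy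
    nlinarith
  have h2 : Filter.Tendsto (fun x : ℕ => √(x : ℝ)) Filter.atTop Filter.atTop :=
    Real.tendsto_sqrt_atTop.comp tendsto_natCast_atTop_atTop
  obtain ⟨X0, hX0⟩ := Filter.eventually_atTop.1 (h2.eventually h1)
  refine ⟨max X0 1, fun x hx => ?_⟩
  have h3 := hX0 x ((le_max_left _ _).trans hx)
  have hx1 : (1:ℝ) ≤ x := by exact_mod_cast (le_max_right X0 1).trans hx
  rw [Real.log_sqrt (by linarith), div_pow] at h3
  have h4 : |c| * 2 ^ k * (Real.log x ^ k / 2 ^ k) = |c| * Real.log x ^ k := by field_simp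
  rw [h4] at h3
  exact (mul_le_mul_of_nonneg_right (le_abs_self c) (pow_nonneg (Real.log_nonneg hx1) _)).trans h3

theorem ev_lg (c : ℝ) : ∃ X0 : ℕ, ∀ x : ℕ, X0 ≤ x → c ≤ Real.log x := by
  have h := (Real.tendsto_log_atTop.comp (tendsto_natCast_atTop_atTop (R := ℝ))).eventually_ge_atTop c
  exact Filter.eventually_atTop.1 h

/-! ### the Liouville function -/

/-- the Liouville function -/
def la (n : ℕ) : ℝ := ((ArithmeticFunction.liouville n : ℤ) : ℝ)

lemma la_zero : la 0 = 0 := by simp [la]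

lemma la_eq {n : ℕ} (hn : n ≠ 0) : la n = (-1) ^ ArithmeticFunction.cardFactors n := by
  unfold la
  rw [ArithmeticFunction.liouville_apply hn]
  push_cast
  rfl

lemma la_abs (n : ℕ) : |la n| ≤ 1 := by
  rcases eq_or_ne n 0 with rfl | hn
  · rw [la_zero]; simp
  · rw [la_eq hn, abs_pow]
    simp

lemma la_one : la 1 = 1 := by
  rw [la, ArithmeticFunction.liouville_apply_one]; norm_num

lemma la_mul (m n : ℕ) : la (m * n) = la m * la n := by
  unfold la
  rw [ArithmeticFunction.liouville_apply_mul]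
  push_cast
  rfl

/-- the Moebius function -/
def muR (n : ℕ) : ℝ := ((ArithmeticFunction.moebius n : ℤ) : ℝ)

lemma muR_abs (n : ℕ) : |muR n| ≤ 1 := by
  unfold muR
  exact_mod_cast ArithmeticFunction.abs_moebius_le_one (n := n)

lemma A_triv (N q : ℕ) (α : ℕ → ℝ) (hα : ∀ n, |α n| ≤ 1) (χ : DirichletCharacter ℂ q) :
    ‖A N α q χ‖ ≤ N := by
  unfold A
  refine (norm_sum_le _ _).trans ?_
  calc ∑ b ∈ Icc 1 N, ‖(α b : ℂ) * χ (b : ZMod q)‖ ≤ ∑ b ∈ Icc 1 N, (1 : ℝ) := by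
        refine sum_le_sum fun b _ => ?_
        rw [norm_mul, Complex.norm_real, Real.norm_eq_abs]
        calc |α b| * ‖χ (b : ZMod q)‖ ≤ 1 * 1 :=
              mul_le_mul (hα b) (χ.norm_le_one _) (norm_nonneg _) zero_le_one
          _ = 1 := one_mul 1
    _ = N := by simp

lemma A_mu_le (N q : ℕ) (hq : 1 ≤ q) (χ : DirichletCharacter ℂ q) :
    ‖A N muR q χ‖ ≤ ∑ r ∈ range q, |∑ n ∈ (range (N + 1)).filter (fun n => n % q = r),
      ((ArithmeticFunction.moebius n : ℤ) : ℝ)| := by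
  have e1 : A N muR q χ = ∑ n ∈ range (N + 1), (muR n : ℂ) * χ (n : ZMod q) := by
    unfold A
    rw [range_eq_Ico, sum_eq_sum_Ico_succ_bot (by omega)]
    have h0 : (muR 0 : ℂ) * χ ((0 : ℕ) : ZMod q) = 0 := by simp [muR]
    rw [h0, zero_add]
    refine sum_congr ?_ fun _ _ => rfl
    ext n
    rw [mem_Icc, mem_Ico]
    omega
  have hmaps : ∀ n ∈ range (N + 1), n % q ∈ range q := fun n _ => mem_range.2 (Nat.mod_lt _ hq)
  rw [e1, ← sum_fiberwise_of_maps_to hmaps]
  refine (norm_sum_le _ _).trans (sum_le_sum fun r _ => ?_)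
  have e2 : ∑ n ∈ (range (N + 1)).filter (fun n => n % q = r), (muR n : ℂ) * χ (n : ZMod q) =
      ((∑ n ∈ (range (N + 1)).filter (fun n => n % q = r),
        ((ArithmeticFunction.moebius n : ℤ) : ℝ) : ℝ) : ℂ) * χ (r : ZMod q) := by
    rw [Complex.ofReal_sum, sum_mul]
    refine sum_congr rfl fun n hn => ?_
    rw [mem_filter] at hn
    have h3 : ((n : ℕ) : ZMod q) = ((r : ℕ) : ZMod q) := by
      rw [← hn.2, ZMod.natCast_mod]
    rw [h3]
    rfl
  rw [e2, norm_mul, Complex.norm_real, Real.norm_eq_abs]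
  exact mul_le_of_le_one_right (abs_nonneg _) (χ.norm_le_one _)

/-- Siegel-Walfisz for the Moebius function and characters -/
theorem sw_mu (A' B' : ℕ) : ∃ N₀ : ℕ, ∀ N : ℕ, N₀ ≤ N → ∀ q : ℕ, 1 ≤ q → (q : ℝ) ≤ Real.log N ^ B' →
    ∀ χ : DirichletCharacter ℂ q, ‖A N muR q χ‖ ≤ q * (((N : ℝ) + 1) / Real.log N ^ A') := by
  obtain ⟨N₀, h0⟩ := Pool.Agent.H705R2.MSW.swMu A' B'
  refine ⟨max N₀ 3, fun N hN q hq hqB χ => ?_⟩
  have hN0 : N₀ ≤ N := (le_max_left _ _).trans hN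
  have hN3 : 3 ≤ N := (le_max_right _ _).trans hN
  have hNr : (3:ℝ) ≤ N := by exact_mod_cast hN3
  have hl0 : 0 < Real.log N := Real.log_pos (by linarith)
  have hl : Real.log N ≤ Real.log ((N + 1 : ℕ) : ℝ) :=
    Real.log_le_log (by linarith) (by push_cast; linarith)
  refine (A_mu_le N q hq χ).trans ?_
  have h1 : ∀ r ∈ range q, |∑ n ∈ (range (N + 1)).filter (fun n => n % q = r),
      ((ArithmeticFunction.moebius n : ℤ) : ℝ)| ≤ ((N : ℝ) + 1) / Real.log N ^ A' := by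
    intro r _
    refine (h0 (N + 1) (by omega) q r hq (hqB.trans (pow_le_pow_left₀ hl0.le hl _))).trans ?_
    push_cast
    push_cast at hl
    have h2 : Real.log N ^ A' ≤ Real.log ((N : ℝ) + 1) ^ A' := pow_le_pow_left₀ hl0.le hl _
    exact div_le_div_of_nonneg_left (by linarith) (by positivity) h2
  refine (sum_le_sum h1).trans (le_of_eq ?_)
  rw [sum_const, card_range, nsmul_eq_mul]

/-- splitting off squares -/
lemma A_la_le (M q : ℕ) (χ : DirichletCharacter ℂ q) :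
    ‖A M la q χ‖ ≤ ∑ m ∈ Icc 1 M, ‖A (M / m ^ 2) muR q χ‖ := by
  have e1 : A M la q χ = ∑ n ∈ Icc 1 M, ((-1 : ℂ) ^ (ArithmeticFunction.cardFactors n)) *
      χ (n : ZMod q) := by
    unfold A
    refine sum_congr rfl fun n hn => ?_
    rw [mem_Icc] at hn
    rw [la_eq (by omega)]
    push_cast
    rfl
  rw [e1, Pool.Agent.H534R2.BH.lam_sum M (fun n => χ (n : ZMod q))]
  refine (norm_sum_le _ _).trans (sum_le_sum fun m _ => ?_)
  have e2 : ∑ l ∈ Icc 1 (M / m ^ 2), ((ArithmeticFunction.moebius l : ℤ) : ℂ) *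
      χ ((l * m ^ 2 : ℕ) : ZMod q) = A (M / m ^ 2) muR q χ * χ ((m ^ 2 : ℕ) : ZMod q) := by
    unfold A
    rw [sum_mul]
    refine sum_congr rfl fun l _ => ?_
    rw [Nat.cast_mul, map_mul]
    unfold muR
    push_cast
    ring
  rw [e2, norm_mul]
  exact mul_le_of_le_one_right (norm_nonneg _) (χ.norm_le_one _)

/-- Siegel-Walfisz for the Liouville function -/
theorem sw_la (U B : ℕ) : ∃ N₀ : ℕ, ∀ N : ℕ, N₀ ≤ N → ∀ q : ℕ, 1 ≤ q → (q : ℝ) ≤ Real.log N ^ B →
    ∀ χ : DirichletCharacter ℂ q, ∀ M : ℕ, M ≤ N → ‖A M la q χ‖ ≤ N / Real.log N ^ U := by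
  set A' := U + B + 2 with hA'
  obtain ⟨N1, h1⟩ := sw_mu A' (B + 1)
  obtain ⟨N2, h2⟩ := ev_log 0 (N1 + 4 : ℝ)
  obtain ⟨N3, h3⟩ := ev_log (2 * U + 4) 4
  obtain ⟨N4, h4⟩ := ev_lg (8 * 2 ^ A' + 8 * 2 ^ (B + 1) + 16)
  refine ⟨max (max N2 N3) (max N4 3), fun N hN q hq hqB χ M hMN => ?_⟩
  have g2 := h2 N (le_trans (le_trans (le_max_left _ _) (le_max_left _ _)) hN)
  have g3 := h3 N (le_trans (le_trans (le_max_right _ _) (le_max_left _ _)) hN)
  have g4 := h4 N (le_trans (le_trans (le_max_left _ _) (le_max_right _ _)) hN)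
  have hN3 : 3 ≤ N := le_trans (le_trans (le_max_right _ _) (le_max_right _ _)) hN
  have hNr : (3:ℝ) ≤ N := by exact_mod_cast hN3
  set L := Real.log N with hL
  have hp1 : (1:ℝ) ≤ 2 ^ A' := one_le_pow₀ (by norm_num)
  have hp2 : (1:ℝ) ≤ 2 ^ (B + 1) := one_le_pow₀ (by norm_num)
  have hL16 : 16 ≤ L := by linarith
  have hL0 : 0 < L := by linarith
  have hL1 : 1 ≤ L := by linarith
  set s := √(N : ℝ) with hs
  have hss : s * s = N := Real.mul_self_sqrt (by linarith)
  have hs0 : 0 < s := Real.sqrt_pos.2 (by linarith)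
  rw [pow_zero, mul_one] at g2
  -- the level of the squares
  set T := ⌈L ^ (U + 1)⌉₊ with hT
  have hT1 : L ^ (U + 1) ≤ T := Nat.le_ceil _
  have hLU : 1 ≤ L ^ (U + 1) := one_le_pow₀ hL1
  have hT2 : (T : ℝ) ≤ 2 * L ^ (U + 1) := by
    have := Nat.ceil_lt_add_one (show 0 ≤ L ^ (U + 1) by positivity)
    linarith
  have hT0 : 1 ≤ T := by
    have : (1:ℝ) ≤ T := hLU.trans hT1
    exact_mod_cast this
  -- the bound for one term
  have hterm : ∀ z : ℕ, z ≤ N → ‖A z muR q χ‖ ≤ s + z * (2 ^ (A' + 1) * L ^ B / L ^ A') := by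
    intro z hzN
    by_cases hz : (z : ℝ) < s
    · refine (A_triv z q muR muR_abs χ).trans ?_
      have : 0 ≤ (z : ℝ) * (2 ^ (A' + 1) * L ^ B / L ^ A') := by positivity
      linarith
    · push Not at hz
      have hz4 : (N1 : ℝ) + 4 ≤ z := g2.trans hz
      have hz0 : 0 < (z : ℝ) := by linarith [Nat.cast_nonneg (α := ℝ) N1]
      have hzN1 : N1 ≤ z := by
        have : (N1 : ℝ) ≤ z := by linarith
        exact_mod_cast this
      have hlz : L / 2 ≤ Real.log z := by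
        rw [hL, ← Real.log_sqrt (by linarith)]
        exact Real.log_le_log hs0 hz
      have hlz0 : 0 < Real.log z := by linarith
      have hqz : (q : ℝ) ≤ Real.log z ^ (B + 1) := by
        refine hqB.trans ?_
        have h5 : L ^ B ≤ (2 * Real.log z) ^ B := pow_le_pow_left₀ hL0.le (by linarith) _
        refine h5.trans ?_
        rw [mul_pow, pow_succ, mul_comm]
        refine mul_le_mul_of_nonneg_left ?_ (by positivity)
        have h6 : (2:ℝ) ^ B ≤ 2 ^ (B + 1) := pow_le_pow_right₀ (by norm_num) (by omega)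
        linarith
      refine (h1 z hzN1 q hq hqz χ).trans ?_
      have h7 : Real.log z ^ A' ≥ (L / 2) ^ A' := pow_le_pow_left₀ (by positivity) hlz _
      have h8 : ((z : ℝ) + 1) / Real.log z ^ A' ≤ (2 * z) / (L / 2) ^ A' :=
        div_le_div₀ (by positivity) (by linarith [Nat.cast_nonneg (α := ℝ) N1]) (by positivity) h7
      calc (q : ℝ) * (((z : ℝ) + 1) / Real.log z ^ A') ≤ L ^ B * ((2 * z) / (L / 2) ^ A') :=
            mul_le_mul hqB h8 (by positivity) (by positivity)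
        _ = z * (2 ^ (A' + 1) * L ^ B / L ^ A') := by
            rw [div_pow, pow_succ (2 : ℝ) A']
            field_simp
        _ ≤ _ := by linarith
  -- the sum
  refine (A_la_le M q χ).trans ?_
  have hdiv : ∀ m : ℕ, ((M / m ^ 2 : ℕ) : ℝ) ≤ N * ((m : ℝ) ^ 2)⁻¹ := by
    intro m
    refine (Nat.cast_div_le).trans ?_
    push_cast
    rw [div_eq_mul_inv]
    have : (M : ℝ) ≤ N := by exact_mod_cast hMN
    gcongr
  have hS1 : ∑ m ∈ (Icc 1 M).filter (fun m => m ≤ T), ‖A (M / m ^ 2) muR q χ‖ ≤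
      T * s + 2 * N * (2 ^ (A' + 1) * L ^ B / L ^ A') := by
    have h5 : ∀ m ∈ (Icc 1 M).filter (fun m => m ≤ T), ‖A (M / m ^ 2) muR q χ‖ ≤
        s + N * (2 ^ (A' + 1) * L ^ B / L ^ A') * ((m : ℝ) ^ 2)⁻¹ := by
      intro m _
      refine (hterm _ ((Nat.div_le_self _ _).trans hMN)).trans ?_
      have := mul_le_mul_of_nonneg_right (hdiv m)
        (show (0:ℝ) ≤ 2 ^ (A' + 1) * L ^ B / L ^ A' by positivity)
      linarith
    refine (sum_le_sum h5).trans ?_
    rw [sum_add_distrib, sum_const, nsmul_eq_mul, ← mul_sum]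
    have hsub : (Icc 1 M).filter (fun m => m ≤ T) ⊆ Icc 1 T := by
      intro m hm
      rw [mem_filter, mem_Icc] at hm
      rw [mem_Icc]
      exact ⟨hm.1.1, hm.2⟩
    have hcard : ((((Icc 1 M).filter (fun m => m ≤ T)).card : ℕ) : ℝ) ≤ T := by
      have := card_le_card hsub
      rw [Nat.card_Icc] at this
      exact_mod_cast (by omega : ((Icc 1 M).filter (fun m => m ≤ T)).card ≤ T)
    have hsum : ∑ m ∈ (Icc 1 M).filter (fun m => m ≤ T), ((m : ℝ) ^ 2)⁻¹ ≤ 2 := by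
      refine (sum_le_sum_of_subset_of_nonneg hsub fun _ _ _ => by positivity).trans ?_
      have h6 : Icc 1 T = insert 1 (Ioc 1 T) := by
        ext m
        rw [mem_insert, mem_Icc, mem_Ioc]
        omega
      rw [h6, sum_insert (by simp)]
      have h7 := sum_Ioc_inv_sq_le_sub (α := ℝ) (k := 1) (n := T) one_ne_zero hT0
      have h8 : (0:ℝ) ≤ ((T : ℝ))⁻¹ := by positivity
      push_cast at h7 ⊢
      norm_num at h7 ⊢
      linarith
    have h9 : (0:ℝ) ≤ N * (2 ^ (A' + 1) * L ^ B / L ^ A') := by positivity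
    calc _ ≤ T * s + N * (2 ^ (A' + 1) * L ^ B / L ^ A') * 2 :=
          add_le_add (mul_le_mul_of_nonneg_right hcard hs0.le) (mul_le_mul_of_nonneg_left hsum h9)
      _ = _ := by ring
  have hS2 : ∑ m ∈ (Icc 1 M).filter (fun m => ¬ m ≤ T), ‖A (M / m ^ 2) muR q χ‖ ≤ N / T := by
    have h5 : ∀ m ∈ (Icc 1 M).filter (fun m => ¬ m ≤ T), ‖A (M / m ^ 2) muR q χ‖ ≤
        N * ((m : ℝ) ^ 2)⁻¹ := fun m _ => (A_triv _ q muR muR_abs χ).trans (hdiv m)
    refine (sum_le_sum h5).trans ?_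
    rw [← mul_sum, div_eq_mul_inv]
    refine mul_le_mul_of_nonneg_left ?_ (by linarith)
    have hsub : (Icc 1 M).filter (fun m => ¬ m ≤ T) ⊆ Ioc T (max T M) := by
      intro m hm
      rw [mem_filter, mem_Icc] at hm
      rw [mem_Ioc]
      exact ⟨by omega, le_max_of_le_right hm.1.2⟩
    refine (sum_le_sum_of_subset_of_nonneg hsub fun _ _ _ => by positivity).trans ?_
    have h7 := sum_Ioc_inv_sq_le_sub (α := ℝ) (k := T) (n := max T M) (by omega) (le_max_left _ _)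
    have h8 : (0:ℝ) ≤ (((max T M : ℕ) : ℝ))⁻¹ := by positivity
    linarith
  rw [← sum_filter_add_sum_filter_not (Icc 1 M) (fun m => m ≤ T)]
  have f1 : (T : ℝ) * s ≤ (1 / 2) * (N / L ^ U) := by
    have h5 : 4 * L ^ (2 * U + 4) ≤ s := g3
    have h6 : (T : ℝ) * L ^ U ≤ (1 / 2) * s := by
      calc (T : ℝ) * L ^ U ≤ 2 * L ^ (U + 1) * L ^ U := by gcongr
        _ = 2 * L ^ (2 * U + 1) := by rw [mul_assoc, ← pow_add]; ring_nf
        _ ≤ 2 * L ^ (2 * U + 4) := by
            refine mul_le_mul_of_nonneg_left (pow_le_pow_right₀ hL1 (by omega)) (by norm_num)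
        _ ≤ _ := by linarith
    rw [← mul_div_assoc, le_div_iff₀ (by positivity)]
    calc (T : ℝ) * s * L ^ U = (T * L ^ U) * s := by ring
      _ ≤ ((1 / 2) * s) * s := by gcongr
      _ = 1 / 2 * N := by rw [← hss]; ring
  have f2 : 2 * N * (2 ^ (A' + 1) * L ^ B / L ^ A') ≤ (1 / 4) * (N / L ^ U) := by
    have h5 : L ^ A' = L ^ U * L ^ B * (L * L) := by rw [hA', pow_add, pow_add]; ring
    rw [h5]
    have h6 : 2 * (N : ℝ) * (2 ^ (A' + 1) * L ^ B / (L ^ U * L ^ B * (L * L))) =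
        (N / L ^ U) * ((4 * 2 ^ A') / (L * L)) := by
      rw [pow_succ]; field_simp; ring
    rw [h6, mul_comm (1 / 4 : ℝ)]
    refine mul_le_mul_of_nonneg_left ?_ (by positivity)
    rw [div_le_iff₀ (by positivity)]
    nlinarith
  have f3 : (N : ℝ) / T ≤ (1 / 4) * (N / L ^ U) := by
    calc (N : ℝ) / T ≤ N / L ^ (U + 1) := div_le_div_of_nonneg_left (by linarith) (by positivity) hT1
      _ = (N / L ^ U) * (1 / L) := by rw [pow_succ]; field_simp
      _ ≤ (N / L ^ U) * (1 / 4) := by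
          refine mul_le_mul_of_nonneg_left ?_ (by positivity)
          exact one_div_le_one_div_of_le (by norm_num) (by linarith)
      _ = _ := by ring
  have hpos : 0 ≤ (N : ℝ) / L ^ U := by positivity
  linarith

end

end Pool.Agent.N403.QG
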